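import Pool.Agent.helper72.UT.Total
import Pool.Agent.helper20.HP.Goal

/-!
Bridge between the forest computations and the definitions of the project.
-/

set_option autoImplicit false

namespace Pool.Agent.helper72.UT

open Finset

variable {V : Type} [Fintype V] [DecidableEq V]

open Pool.Agent.helper20 (HP.HW HP.W HP.stp HP.run HP.kmT HP.lev HP.Phi HP.spTrees HP.height HP.ustE)

omit [Fintype V] in
lemma stepL_eq_stp (γ : List V) (y : V) : stepL γ y = HP.stp γ y := rfl

/-- iterated kernel as an expectation over words -/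
theorem ker_iter_eq_W (K : HP.HW V) (C : Finset V) (φ : List V → ℝ) (t : ℕ) (x : V)
    (l₀ : List V) :
    (ker K.p C)^[t] φ (x :: l₀) =
      HP.W K t x (fun l => if ∀ y ∈ l, y ∉ C then φ (HP.run (x :: l₀) l) else 0) := by
  induction t generalizing x l₀ with
  | zero => simp [HP.W, HP.run]
  | succ t ih =>
    rw [Function.iterate_succ_apply']
    show ∑ y, K.p x y * (if y ∈ C then 0 else (ker K.p C)^[t] φ (stepL (x :: l₀) y)) =
      ∑ y, K.p x y * HP.W K t y (fun l => if ∀ z ∈ y :: l, z ∉ C then
        φ (HP.run (x :: l₀) (y :: l)) else 0)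
    refine Finset.sum_congr rfl fun y _ => ?_
    congr 1
    obtain ⟨l', hl'⟩ := stepL_cons (x :: l₀) y
    by_cases hy : y ∈ C
    · rw [if_pos hy]
      have : (fun l : List V => if ∀ z ∈ y :: l, z ∉ C then
          φ (HP.run (x :: l₀) (y :: l)) else (0 : ℝ)) = fun _ => 0 := by
        funext l
        rw [if_neg]
        intro h
        exact h y (by simp) hy
      rw [this]
      have hz : ∀ (t : ℕ) (y : V), HP.W K t y (fun _ => (0 : ℝ)) = 0 := by
        intro t
        induction t with
        | zero => intro y; rfl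
        | succ t ih =>
          intro y
          show ∑ z, K.p y z * HP.W K t z (fun _ => (0 : ℝ)) = 0
          refine Finset.sum_eq_zero fun z _ => ?_
          rw [ih]; simp
      rw [hz]
    · rw [if_neg hy, hl', ih]
      congr 1
      funext l
      have h1 : (∀ z ∈ y :: l, z ∉ C) ↔ ∀ z ∈ l, z ∉ C := by
        simp [hy]
      have h2 : HP.run (x :: l₀) (y :: l) = HP.run (y :: l') l := by
        unfold HP.run
        rw [List.foldl_cons, ← stepL_eq_stp, hl']
      rw [h2]
      by_cases h : ∀ z ∈ l, z ∉ C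
      · rw [if_pos h, if_pos (h1.2 h)]
      · rw [if_neg h, if_neg (fun h' => h (h1.1 h'))]

omit [Fintype V] in
/-- a walk which avoids `ρ` does not see `ρ` -/
lemma run_append (x : V) (ρ : List V) (l : List V) (h : ∀ y ∈ l, y ∉ ρ) :
    HP.run (x :: ρ) l = HP.run [x] l ++ ρ := by
  have key : ∀ (l : List V) (γ : List V), (∀ y ∈ l, y ∉ ρ) →
      HP.run (γ ++ ρ) l = HP.run γ l ++ ρ := by
    intro l
    induction l with
    | nil => intro γ _; rfl
    | cons y l ih =>
      intro γ hl
      have hy : y ∉ ρ := hl y (by simp)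
      have h1 : HP.stp (γ ++ ρ) y = HP.stp γ y ++ ρ := by
        unfold HP.stp
        by_cases hg : y ∈ γ
        · rw [if_pos hg, if_pos (by simp [hg])]
          clear ih hl
          induction γ with
          | nil => simp at hg
          | cons a γ ih' =>
            by_cases ha : a = y
            · subst ha; simp
            · rw [List.cons_append, List.dropWhile_cons_of_pos (by simpa using ha),
                List.dropWhile_cons_of_pos (by simpa using ha)]
              apply ih'
              rcases List.mem_cons.1 hg with h' | h'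
              · exact absurd h'.symm ha
              · exact h'
        · rw [if_neg hg, if_neg (by simp [hg, hy])]; rfl
      show HP.run (HP.stp (γ ++ ρ) y) l = HP.run (HP.stp γ y) l ++ ρ
      rw [h1]
      exact ih _ (fun z hz => hl z (by simp [hz]))
  have := key l [x] h
  simpa using this

omit [Fintype V] in
lemma run_ne_nil (x : V) (l₀ l : List V) : ∃ y l', HP.run (x :: l₀) l = y :: l' := by
  induction l generalizing x l₀ with
  | nil => exact ⟨x, l₀, rfl⟩
  | cons y l ih =>
    obtain ⟨l', hl'⟩ := stepL_cons (x :: l₀) y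
    have : HP.run (x :: l₀) (y :: l) = HP.run (y :: l') l := by
      unfold HP.run
      rw [List.foldl_cons, ← stepL_eq_stp, hl']
    rw [this]; exact ih y l'

/-- the two versions of `Phi` agree -/
theorem Phi_eq (K : HP.HW V) (γ : List V) (hn : γ.Nodup) (r : ℕ)
    (hs : ∀ o ∈ γ.toFinset, Summable (fun t : ℕ => (ker K.p γ.toFinset)^[t]
      (fun l => if l.length - 1 + pos γ o = r then (1 : ℝ) else 0) [o])) :
    HP.Phi K γ r = Phi K.p γ r := by
  unfold HP.Phi Phi
  rw [← Summable.tsum_finsetSum hs]
  congr 1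
  funext t
  unfold HP.kmT
  rw [List.sum_toFinset _ hn]
  have e : γ.map (fun o => (ker K.p γ.toFinset)^[t]
        (fun l => if l.length - 1 + pos γ o = r then (1 : ℝ) else 0) [o]) =
      List.ofFn (fun i : Fin γ.length => (ker K.p γ.toFinset)^[t]
        (fun l => if l.length - 1 + pos γ (γ.get i) = r then (1 : ℝ) else 0) [γ.get i]) := by
    have : ∀ g : V → ℝ, γ.map g = List.ofFn (fun i : Fin γ.length => g (γ.get i)) := by
      intro g
      calc γ.map g = (List.ofFn γ.get).map g := by rw [List.ofFn_get]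
        _ = List.ofFn (g ∘ γ.get) := List.map_ofFn
        _ = _ := rfl
    exact this _
  rw [e, List.sum_ofFn]
  refine Finset.sum_congr rfl fun i _ => ?_
  rw [ker_iter_eq_W]
  congr 1
  funext l
  have hdrop : γ.drop i = γ.get i :: γ.drop (i + 1) := by
    simp
  have hpos : pos γ (γ.get i) = (γ.drop (i + 1)).length := by
    unfold pos
    rw [dropWhile_eq_of_suffix (δ := γ.drop (i + 1)) hn (hdrop ▸ List.drop_suffix _ _),
      List.length_cons]
    rfl
  have hmem : (∀ y ∈ l, y ∉ γ) ↔ ∀ y ∈ l, y ∉ γ.toFinset := by simp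
  by_cases h : ∀ y ∈ l, y ∉ γ
  · have hi : Pool.Agent.helper20.HP.ind (∀ y ∈ l, y ∉ γ) = 1 := by
      unfold Pool.Agent.helper20.HP.ind; rw [if_pos h]
    rw [hi, one_mul, if_pos (hmem.1 h)]
    unfold HP.lev Pool.Agent.helper20.HP.ind
    rw [run_append (γ.get i) (γ.drop (i + 1)) l (fun y hy hy' => h y hy (List.mem_of_mem_drop hy'))]
    obtain ⟨y, l', hl'⟩ := run_ne_nil (γ.get i) [] l
    rw [hpos, hl', List.length_append, List.length_cons]
    have : (l'.length + 1 + (γ.drop (i + 1)).length = r + 1) ↔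
        (l'.length + 1 - 1 + (γ.drop (i + 1)).length = r) := by omega
    by_cases h2 : l'.length + 1 + (γ.drop (i + 1)).length = r + 1
    · rw [if_pos h2, if_pos (this.1 h2)]
    · rw [if_neg h2, if_neg (fun h3 => h2 (this.2 h3))]
  · have hi : Pool.Agent.helper20.HP.ind (∀ y ∈ l, y ∉ γ) = 0 := by
      unfold Pool.Agent.helper20.HP.ind; rw [if_neg h]
    rw [hi, zero_mul, if_neg (fun h' => h (hmem.2 h'))]

/-- `Phi` of the project for the lazy walk -/
theorem Phi_eq' {G : SimpleGraph V} {D : ℕ} (h : Reg G D) (K : HP.HW V) (hK : K.p = lz G D)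
    (γ : List V) (hn : γ.Nodup) (r : ℕ) : HP.Phi K γ r = Phi (lz G D) γ r := by
  classical
  rw [Phi_eq K γ hn r, hK]
  intro o ho
  rw [hK]
  have hb : ∀ l : List V, |(if l.length - 1 + pos γ o = r then (1 : ℝ) else 0)| ≤ 1 := by
    intro l; split_ifs <;> simp
  have hs := (pot_hasSum G h.conn D h.pos (by
      intro v
      have := h.reg v
      convert this) γ.toFinset o ho _ 1 hb).summable
  have hc : ((fors G γ.toFinset).card : ℝ) ≠ 0 := by
    have := Finset.card_pos.2 (fors_nonempty h.conn ⟨o, ho⟩)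
    exact_mod_cast this.ne'
  exact (summable_mul_left_iff hc).1 hs

omit [DecidableEq V] in
lemma spTrees_eq [DecidableEq V] (G : SimpleGraph V) : HP.spTrees G = strees G := by
  ext T
  simp [HP.spTrees, strees]

omit [DecidableEq V] in
lemma height_eq (T : SimpleGraph V) (o : V) (r : ℕ) : (HP.height T o r : ℝ) = prof T o r := by
  classical
  unfold HP.height prof
  congr 2

omit [DecidableEq V] in
lemma ustE_eq [DecidableEq V] (G : SimpleGraph V) (F : SimpleGraph V → ℝ) :
    HP.ustE G F = (∑ T ∈ strees G, F T) / ((strees G).card : ℝ) := by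
  unfold HP.ustE
  rw [spTrees_eq]

/-- expected height profile -/
theorem ust_first {G : SimpleGraph V} {D : ℕ} (h : Reg G D) (K : HP.HW V) (hK : K.p = lz G D)
    (o : V) (r : ℕ) : HP.ustE G (fun T => (HP.height T o r : ℝ)) = HP.Phi K [o] r := by
  rw [ustE_eq, Phi_eq' h K hK [o] (by simp)]
  simp only [height_eq]
  rw [first_moment h]
  have : ((strees G).card : ℝ) ≠ 0 := by exact_mod_cast (strees_pos h.conn).ne'
  field_simp

/-- second moment of the increments of the height profile -/
theorem ust_second {G : SimpleGraph V} {D : ℕ} (h : Reg G D) (K : HP.HW V) (hK : K.p = lz G D)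
    (o : V) (r s : ℕ) (ε : ℝ)
    (hyp : ∀ γ, PathTo G o γ → (γ.length = r + 1 ∨ γ.length = s + 1) →
      |HP.Phi K γ r - HP.Phi K γ s| ≤ ε) :
    HP.ustE G (fun T => ((HP.height T o r : ℝ) - HP.height T o s) ^ 2) ≤
      ε * (HP.Phi K [o] r + HP.Phi K [o] s) := by
  rw [← ust_first h K hK o r, ← ust_first h K hK o s, ustE_eq, ustE_eq, ustE_eq]
  simp only [height_eq]
  have h1 := second_moment h o r s ε (by
    intro γ hγ hl
    rw [← Phi_eq' h K hK γ hγ.nodup, ← Phi_eq' h K hK γ hγ.nodup]
    exact hyp γ hγ hl)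
  rw [Finset.sum_add_distrib] at h1
  have h2 : (0 : ℝ) < ((strees G).card : ℝ) := by exact_mod_cast (strees_pos h.conn)
  rw [← add_div, mul_div_assoc', div_le_div_iff_of_pos_right h2]
  exact h1

/-- total mass of `Phi` -/
theorem HPhi_total {G : SimpleGraph V} {D : ℕ} (h : Reg G D) (K : HP.HW V) (hK : K.p = lz G D)
    {o : V} {γ : List V} (hγ : PathTo G o γ) :
    ∑ r ∈ range (Fintype.card V), HP.Phi K γ r = Fintype.card V := by
  obtain ⟨a, δ, rfl⟩ : ∃ a δ, γ = a :: δ := by
    cases γ with
    | nil => have := hγ.last; simp at this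
    | cons a δ => exact ⟨a, δ, rfl⟩
  rw [← Phi_total h hγ]
  exact Finset.sum_congr rfl fun r _ => Phi_eq' h K hK _ hγ.nodup r

theorem HPhi_nonneg {G : SimpleGraph V} {D : ℕ} (h : Reg G D) (K : HP.HW V) (hK : K.p = lz G D)
    {o : V} {γ : List V} (hγ : PathTo G o γ) (r : ℕ) : 0 ≤ HP.Phi K γ r := by
  obtain ⟨a, δ, rfl⟩ : ∃ a δ, γ = a :: δ := by
    cases γ with
    | nil => have := hγ.last; simp at this
    | cons a δ => exact ⟨a, δ, rfl⟩
  rw [Phi_eq' h K hK _ hγ.nodup]
  exact Phi_nonneg h hγ r

end Pool.Agent.helper72.UT
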