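import Pool.Agent.helper72.UT.Tree

/-!
First and second moments of the height profile of the uniform spanning tree.
-/

set_option autoImplicit false

namespace Pool.Agent.helper72.UT

open Finset

variable {V : Type*} [Fintype V] [DecidableEq V]

/-- expected number of vertices at distance `r` from `O`, given that the path `γ` is in the tree,
written with the killed lazy walk started at the vertices of `γ` -/
noncomputable def Phi (p : V → V → ℝ) (γ : List V) (r : ℕ) : ℝ :=
  ∑ o ∈ γ.toFinset, ∑' t : ℕ, (ker p γ.toFinset)^[t]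
    (fun l => if l.length - 1 + pos γ o = r then (1 : ℝ) else 0) [o]

/-- number of vertices of depth `r` -/
noncomputable def hgt (B : Finset V) (f : V → V) (r : ℕ) : ℝ :=
  ∑ v, if dep B f v = r then (1 : ℝ) else 0

/-- the lazy walk on a `D`-regular connected graph -/
structure Reg (G : SimpleGraph V) (D : ℕ) : Prop where
  conn : G.Connected
  pos : 0 < D
  reg : ∀ v, (open Classical in (univ.filter (fun w => G.Adj v w)).card) = D

theorem card_mul_Phi {G : SimpleGraph V} {D : ℕ} (h : Reg G D) (γ : List V) (r : ℕ) :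
    ((fors G γ.toFinset).card : ℝ) * Phi (lz G D) γ r =
      ∑ g ∈ fors G γ.toFinset, ∑ v,
        if dep γ.toFinset g v + pos γ (rt γ.toFinset g v) = r then (1 : ℝ) else 0 := by
  classical
  unfold Phi
  rw [Finset.mul_sum]
  have h1 : ∀ o ∈ γ.toFinset, ((fors G γ.toFinset).card : ℝ) *
      ∑' t : ℕ, (ker (lz G D) γ.toFinset)^[t]
        (fun l => if l.length - 1 + pos γ o = r then (1 : ℝ) else 0) [o] =
      ∑ g ∈ fors G γ.toFinset, ∑ v, if rt γ.toFinset g v = o then
        (if dep γ.toFinset g v + pos γ (rt γ.toFinset g v) = r then (1 : ℝ) else 0) else 0 := by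
    intro o ho
    have hb : ∀ l : List V, |(if l.length - 1 + pos γ o = r then (1 : ℝ) else 0)| ≤ 1 := by
      intro l; split_ifs <;> simp
    have hs := pot_hasSum G h.conn D h.pos (by
      intro v
      have := h.reg v
      convert this) γ.toFinset o ho _ 1 hb
    rw [← tsum_mul_left, hs.tsum_eq]
    unfold pot
    refine Finset.sum_congr rfl fun g _ => ?_
    rw [Finset.sum_filter]
    refine Finset.sum_congr rfl fun v _ => ?_
    by_cases hv : rt γ.toFinset g v = o
    · rw [if_pos hv, if_pos hv, hv]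
      simp only [pth_length, Nat.add_sub_cancel]
    · rw [if_neg hv, if_neg hv]
  rw [Finset.sum_congr rfl h1, Finset.sum_comm]
  refine Finset.sum_congr rfl fun g hg => ?_
  rw [mem_fors] at hg
  rw [Finset.sum_comm]
  refine Finset.sum_congr rfl fun v _ => ?_
  rw [Finset.sum_ite_eq, if_pos (hg.rt_mem_B v)]

/-- the expected profile of the trees which contain `γ` -/
theorem sum_hgt_path {G : SimpleGraph V} {D : ℕ} (h : Reg G D) (O a : V) (δ : List V)
    (hγ : PathTo G O (a :: δ)) (r : ℕ) :
    ∑ f ∈ (fors G {O}).filter (fun f => pth {O} f a = a :: δ), hgt {O} f r =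
      ((fors G (a :: δ).toFinset).card : ℝ) * Phi (lz G D) (a :: δ) r := by
  rw [sum_path G O a δ hγ, card_mul_Phi h]
  refine Finset.sum_congr rfl fun g hg => ?_
  rw [mem_fors] at hg
  obtain ⟨h1, h2⟩ := hγ.ext hg
  have h3 := h2 a δ rfl
  unfold hgt
  refine Finset.sum_congr rfl fun v _ => ?_
  have h4 := h1.dep_red a v
  rw [h3, red_ext _ g hg] at h4
  rw [h4]

/-- number of trees containing `γ` -/
theorem card_path {G : SimpleGraph V} (O a : V) (δ : List V) (hγ : PathTo G O (a :: δ)) :
    (((fors G {O}).filter (fun f => pth {O} f a = a :: δ)).card : ℝ) =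
      ((fors G (a :: δ).toFinset).card : ℝ) := by
  have := sum_path G O a δ hγ (fun _ => 1)
  simpa using this

/-- the paths of length `r` which occur -/
noncomputable def paths (G : SimpleGraph V) (O : V) (r : ℕ) : Finset (List V) :=
  (((fors G {O}) ×ˢ (univ : Finset V)).filter (fun q => dep {O} q.1 q.2 = r)).image
    (fun q => pth {O} q.1 q.2)

lemma mem_paths {G : SimpleGraph V} {O : V} {r : ℕ} {γ : List V} (h : γ ∈ paths G O r) :
    PathTo G O γ ∧ γ.length = r + 1 ∧ ∃ a δ, γ = a :: δ := by
  unfold paths at h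
  rw [Finset.mem_image] at h
  obtain ⟨⟨f, v⟩, h1, h2⟩ := h
  rw [Finset.mem_filter, Finset.mem_product, mem_fors] at h1
  simp only [mem_univ, and_true] at h1
  simp only at h2
  refine ⟨h2 ▸ h1.1.pathTo, ?_, ?_⟩
  · rw [← h2, pth_length, h1.2]
  · obtain ⟨l, hl⟩ := pth_eq_cons {O} f v
    exact ⟨v, l, by rw [← h2, hl]⟩

/-- expansion of a sum weighted by the profile over paths -/
theorem sum_hgt_mul (G : SimpleGraph V) (O : V) (r : ℕ) (F : (V → V) → ℝ) :
    ∑ f ∈ fors G {O}, hgt {O} f r * F f =
      ∑ γ ∈ paths G O r, ∑ f ∈ fors G {O},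
        if (∃ v, pth {O} f v = γ) then F f else 0 := by
  classical
  rw [Finset.sum_comm]
  refine Finset.sum_congr rfl fun f hf => ?_
  unfold hgt
  rw [Finset.sum_mul]
  have h1 : ∀ v, (if dep {O} f v = r then (1 : ℝ) else 0) * F f =
      ∑ γ ∈ paths G O r, if pth {O} f v = γ then F f else 0 := by
    intro v
    rw [Finset.sum_ite_eq]
    by_cases hv : dep {O} f v = r
    · have : pth {O} f v ∈ paths G O r := by
        unfold paths
        rw [Finset.mem_image]
        refine ⟨(f, v), ?_, rfl⟩
        rw [Finset.mem_filter, Finset.mem_product]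
        exact ⟨⟨hf, mem_univ v⟩, hv⟩
      rw [if_pos hv, if_pos this, one_mul]
    · have : pth {O} f v ∉ paths G O r := by
        intro hmem
        have := (mem_paths hmem).2.1
        rw [pth_length] at this
        exact hv (by omega)
      rw [if_neg hv, if_neg this, zero_mul]
  rw [Finset.sum_congr rfl fun v _ => h1 v, Finset.sum_comm]
  refine Finset.sum_congr rfl fun γ hγ => ?_
  obtain ⟨_, _, a, δ, rfl⟩ := mem_paths hγ
  by_cases hex : ∃ v, pth {O} f v = a :: δ
  · rw [if_pos hex]
    obtain ⟨v, hv⟩ := hex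
    have hva : ∀ w, pth {O} f w = a :: δ → w = a := by
      intro w hw
      have := pth_head (B := {O}) (f := f) w
      rw [hw] at this
      simpa using this.symm
    have hv' := hva v hv
    subst hv'
    rw [Finset.sum_eq_single v]
    · rw [if_pos hv]
    · intro w _ hw
      rw [if_neg]
      intro h; exact hw (hva w h)
    · intro h; exact absurd (mem_univ v) h
  · rw [if_neg hex]
    refine Finset.sum_eq_zero fun v _ => ?_
    rw [if_neg]
    intro h; exact hex ⟨v, h⟩

lemma sum_exists_path (G : SimpleGraph V) (O a : V) (δ : List V) (F : (V → V) → ℝ) :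
    (∑ f ∈ fors G {O}, if (∃ v, pth {O} f v = a :: δ) then F f else 0) =
      ∑ f ∈ (fors G {O}).filter (fun f => pth {O} f a = a :: δ), F f := by
  classical
  rw [Finset.sum_filter]
  refine Finset.sum_congr rfl fun f _ => ?_
  have : (∃ v, pth {O} f v = a :: δ) ↔ pth {O} f a = a :: δ := by
    constructor
    · rintro ⟨v, hv⟩
      have := pth_head (B := {O}) (f := f) v
      rw [hv] at this
      have h2 : a = v := by simpa using this
      rw [h2]; rw [hv, h2]
    · intro h; exact ⟨a, h⟩
  by_cases h : pth {O} f a = a :: δ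
  · rw [if_pos h, if_pos (this.2 h)]
  · rw [if_neg h, if_neg (fun h' => h (this.1 h'))]

theorem second_moment_for {G : SimpleGraph V} {D : ℕ} (h : Reg G D) (O : V) (r s : ℕ) (ε : ℝ)
    (hyp : ∀ γ, PathTo G O γ → (γ.length = r + 1 ∨ γ.length = s + 1) →
      |Phi (lz G D) γ r - Phi (lz G D) γ s| ≤ ε) :
    ∑ f ∈ fors G {O}, (hgt {O} f r - hgt {O} f s) ^ 2 ≤
      ε * ∑ f ∈ fors G {O}, (hgt {O} f r + hgt {O} f s) := by
  have key : ∀ q, (q = r ∨ q = s) →
      |∑ f ∈ fors G {O}, hgt {O} f q * (hgt {O} f r - hgt {O} f s)| ≤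
        ε * ∑ f ∈ fors G {O}, hgt {O} f q := by
    intro q hq
    have e1 := sum_hgt_mul G O q (fun f => hgt {O} f r - hgt {O} f s)
    have e2 := sum_hgt_mul G O q (fun _ => (1 : ℝ))
    simp only [mul_one] at e2
    rw [e1, e2, Finset.mul_sum]
    refine le_trans (Finset.abs_sum_le_sum_abs _ _) (Finset.sum_le_sum fun γ hγ => ?_)
    obtain ⟨hp, hl, a, δ, rfl⟩ := mem_paths hγ
    rw [sum_exists_path, sum_exists_path, Finset.sum_sub_distrib, sum_hgt_path h O a δ hp,
      sum_hgt_path h O a δ hp, Finset.sum_const, nsmul_eq_mul, mul_one, card_path O a δ hp,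
      ← mul_sub, abs_mul, abs_of_nonneg (by positivity), mul_comm]
    refine mul_le_mul_of_nonneg_right (hyp _ hp ?_) (by positivity)
    rcases hq with rfl | rfl
    · exact Or.inl hl
    · exact Or.inr hl
  have k1 := key r (Or.inl rfl)
  have k2 := key s (Or.inr rfl)
  have e : ∑ f ∈ fors G {O}, (hgt {O} f r - hgt {O} f s) ^ 2 =
      ∑ f ∈ fors G {O}, hgt {O} f r * (hgt {O} f r - hgt {O} f s) -
      ∑ f ∈ fors G {O}, hgt {O} f s * (hgt {O} f r - hgt {O} f s) := by
    rw [← Finset.sum_sub_distrib]
    refine Finset.sum_congr rfl fun f _ => ?_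
    ring
  rw [e, Finset.sum_add_distrib, mul_add]
  have a1 := (abs_le.1 k1).2
  have a2 := (abs_le.1 k2).1
  linarith

/-- the height profile of a tree seen from `O` -/
noncomputable def prof (T : SimpleGraph V) (O : V) (r : ℕ) : ℝ :=
  open Classical in ((univ.filter (fun v => T.dist O v = r)).card : ℝ)

lemma prof_treeOf {G : SimpleGraph V} {O : V} {f : V → V} (hf : IsFor G {O} f) (r : ℕ) :
    prof (treeOf f) O r = hgt {O} f r := by
  classical
  unfold prof hgt
  rw [Finset.card_filter]
  push_cast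
  refine Finset.sum_congr rfl fun v _ => ?_
  rw [hf.dist_eq]

/-- second moment of the increment of the profile of the uniform spanning tree -/
theorem second_moment {G : SimpleGraph V} {D : ℕ} (h : Reg G D) (O : V) (r s : ℕ) (ε : ℝ)
    (hyp : ∀ γ, PathTo G O γ → (γ.length = r + 1 ∨ γ.length = s + 1) →
      |Phi (lz G D) γ r - Phi (lz G D) γ s| ≤ ε) :
    ∑ T ∈ strees G, (prof T O r - prof T O s) ^ 2 ≤
      ε * ∑ T ∈ strees G, (prof T O r + prof T O s) := by
  rw [sum_trees G O, sum_trees G O]
  have h1 := second_moment_for h O r s ε hyp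
  have e1 : ∑ f ∈ fors G {O}, (prof (treeOf f) O r - prof (treeOf f) O s) ^ 2 =
      ∑ f ∈ fors G {O}, (hgt {O} f r - hgt {O} f s) ^ 2 := by
    refine Finset.sum_congr rfl fun f hf => ?_
    rw [mem_fors] at hf
    rw [prof_treeOf hf, prof_treeOf hf]
  have e2 : ∑ f ∈ fors G {O}, (prof (treeOf f) O r + prof (treeOf f) O s) =
      ∑ f ∈ fors G {O}, (hgt {O} f r + hgt {O} f s) := by
    refine Finset.sum_congr rfl fun f hf => ?_
    rw [mem_fors] at hf
    rw [prof_treeOf hf, prof_treeOf hf]
  rw [e1, e2]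
  exact h1

lemma pathTo_singleton (G : SimpleGraph V) (O : V) : PathTo G O [O] :=
  ⟨by simp, by simp, by simp⟩

/-- first moment -/
theorem first_moment {G : SimpleGraph V} {D : ℕ} (h : Reg G D) (O : V) (r : ℕ) :
    ∑ T ∈ strees G, prof T O r = ((strees G).card : ℝ) * Phi (lz G D) [O] r := by
  have hc : ((strees G).card : ℝ) = ((fors G {O}).card : ℝ) := by
    have := sum_trees G O (fun _ => 1)
    simpa using this
  rw [hc, sum_trees G O]
  have h1 := sum_hgt_path h O O [] (pathTo_singleton G O) r
  have h2 : (fors G {O}).filter (fun f => pth {O} f O = [O]) = fors G {O} := by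
    refine Finset.filter_true_of_mem fun f _ => ?_
    exact pth_mem (by simp)
  rw [h2] at h1
  have h3 : ([O] : List V).toFinset = {O} := by simp
  rw [h3] at h1
  rw [← h1]
  refine Finset.sum_congr rfl fun f hf => ?_
  rw [mem_fors] at hf
  rw [prof_treeOf hf]

end Pool.Agent.helper72.UT
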