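import Pool.Agent.helper72.UT.Moment

/-!
Existence of forests, positivity and total mass of `Phi`.
-/

set_option autoImplicit false

namespace Pool.Agent.helper72.UT

open Finset

variable {V : Type*} [Fintype V] [DecidableEq V]

lemma fors_nonempty {G : SimpleGraph V} (hG : G.Connected) {C : Finset V} (hC : C.Nonempty) :
    (fors G C).Nonempty := by
  classical
  -- distance to C
  set d : V → ℕ := fun v => C.inf' hC (fun c => G.dist v c) with hd
  have hd0 : ∀ v, v ∉ C → d v ≠ 0 := by
    intro v hv h0
    obtain ⟨c, hc, h⟩ := Finset.exists_mem_eq_inf' hC (fun c => G.dist v c)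
    have : G.dist v c = 0 := by rw [← h]; exact h0
    rw [hG.dist_eq_zero_iff] at this
    exact hv (this ▸ hc)
  have hex : ∀ v, v ∉ C → ∃ w, G.Adj v w ∧ d w < d v := by
    intro v hv
    obtain ⟨c, hc, h⟩ := Finset.exists_mem_eq_inf' hC (fun c => G.dist v c)
    obtain ⟨p, hp⟩ := hG.exists_walk_length_eq_dist v c
    cases p with
    | nil => exact absurd hc hv
    | @cons _ w _ hvw p =>
      refine ⟨w, hvw, ?_⟩
      rw [SimpleGraph.Walk.length_cons] at hp
      have h1 := SimpleGraph.dist_le p
      have h2 : d w ≤ G.dist w c := Finset.inf'_le _ hc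
      have h3 : d v = G.dist v c := h
      omega
  choose! F hF using hex
  set f : V → V := fun v => if v ∈ C then v else F v with hf
  refine ⟨f, mem_fors.2 ⟨?_, ?_, ?_⟩⟩
  · intro v hv; simp [hf, hv]
  · intro v hv
    have : f v = F v := by simp [hf, hv]
    rw [this]; exact (hF v hv).1
  · have : ∀ n v, d v ≤ n → ∃ k, f^[k] v ∈ C := by
      intro n
      induction n with
      | zero =>
        intro v hv
        by_contra hcon
        have hvC : v ∉ C := fun h => hcon ⟨0, by simpa using h⟩
        exact hd0 v hvC (by omega)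
      | succ n ih =>
        intro v hv
        by_cases hvC : v ∈ C
        · exact ⟨0, by simpa using hvC⟩
        · obtain ⟨k, hk⟩ := ih (F v) (by have := (hF v hvC).2; omega)
          refine ⟨k + 1, ?_⟩
          have : f v = F v := by simp [hf, hvC]
          rw [Function.iterate_succ_apply, this]; exact hk
    intro v; exact this (d v) v le_rfl

lemma strees_pos {G : SimpleGraph V} (hG : G.Connected) : 0 < (strees G).card := by
  obtain ⟨O⟩ := hG.nonempty
  have hc : ((strees G).card : ℝ) = ((fors G {O}).card : ℝ) := by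
    have := sum_trees G O (fun _ => 1)
    simpa using this
  have h1 : 0 < (fors G {O}).card := Finset.card_pos.2 (fors_nonempty hG ⟨O, by simp⟩)
  have h2 : (0 : ℝ) < ((strees G).card : ℝ) := by rw [hc]; exact_mod_cast h1
  exact_mod_cast h2

theorem Phi_nonneg {G : SimpleGraph V} {D : ℕ} (h : Reg G D) {O a : V} {δ : List V}
    (_hγ : PathTo G O (a :: δ)) (r : ℕ) : 0 ≤ Phi (lz G D) (a :: δ) r := by
  have h1 := card_mul_Phi h (a :: δ) r
  have h2 : (0 : ℝ) < ((fors G (a :: δ).toFinset).card : ℝ) := by
    exact_mod_cast Finset.card_pos.2 (fors_nonempty h.conn ⟨a, by simp⟩)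
  have h3 : 0 ≤ ((fors G (a :: δ).toFinset).card : ℝ) * Phi (lz G D) (a :: δ) r := by
    rw [h1]
    refine Finset.sum_nonneg fun g _ => Finset.sum_nonneg fun v _ => ?_
    split_ifs <;> norm_num
  by_contra hcon
  push Not at hcon
  have := mul_neg_of_pos_of_neg h2 hcon
  linarith

lemma dep_lt {G : SimpleGraph V} {B : Finset V} {f : V → V} (hf : IsFor G B f) (v : V) :
    dep B f v < Fintype.card V := by
  have := (hf.nodup_pth v).length_le_card
  rw [pth_length] at this
  omega

theorem Phi_total {G : SimpleGraph V} {D : ℕ} (h : Reg G D) {O a : V} {δ : List V}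
    (hγ : PathTo G O (a :: δ)) :
    ∑ r ∈ range (Fintype.card V), Phi (lz G D) (a :: δ) r = Fintype.card V := by
  classical
  have h2 : (0 : ℝ) < ((fors G (a :: δ).toFinset).card : ℝ) := by
    exact_mod_cast Finset.card_pos.2 (fors_nonempty h.conn ⟨a, by simp⟩)
  have h3 : ((fors G (a :: δ).toFinset).card : ℝ) *
      ∑ r ∈ range (Fintype.card V), Phi (lz G D) (a :: δ) r =
      ((fors G (a :: δ).toFinset).card : ℝ) * Fintype.card V := by
    rw [Finset.mul_sum, Finset.sum_congr rfl fun r _ => (sum_hgt_path h O a δ hγ r).symm,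
      Finset.sum_comm, ← card_path (G := G) O a δ hγ, ← nsmul_eq_mul, ← Finset.sum_const]
    refine Finset.sum_congr rfl fun f hf => ?_
    rw [Finset.mem_filter, mem_fors] at hf
    unfold hgt
    rw [Finset.sum_comm]
    have : ∀ v, ∑ r ∈ range (Fintype.card V), (if dep {O} f v = r then (1 : ℝ) else 0) = 1 := by
      intro v
      rw [Finset.sum_ite_eq, if_pos (Finset.mem_range.2 (dep_lt hf.1 v))]
    rw [Finset.sum_congr rfl fun v _ => this v]
    simp
  exact mul_left_cancel₀ h2.ne' h3

theorem Phi_zero_of_le {G : SimpleGraph V} {D : ℕ} (h : Reg G D) {O a : V} {δ : List V}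
    (hγ : PathTo G O (a :: δ)) {r : ℕ} (hr : Fintype.card V ≤ r) :
    Phi (lz G D) (a :: δ) r = 0 := by
  have h2 : (0 : ℝ) < ((fors G (a :: δ).toFinset).card : ℝ) := by
    exact_mod_cast Finset.card_pos.2 (fors_nonempty h.conn ⟨a, by simp⟩)
  have h1 := sum_hgt_path h O a δ hγ r
  have h4 : ∑ f ∈ (fors G {O}).filter (fun f => pth {O} f a = a :: δ), hgt {O} f r = 0 := by
    refine Finset.sum_eq_zero fun f hf => ?_
    rw [Finset.mem_filter, mem_fors] at hf
    unfold hgt
    refine Finset.sum_eq_zero fun v _ => ?_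
    rw [if_neg]
    have := dep_lt hf.1 v
    omega
  rw [h4] at h1
  rcases mul_eq_zero.1 h1.symm with h5 | h5
  · exact absurd h5 h2.ne'
  · exact h5

end Pool.Agent.helper72.UT
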