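import Pool.Agent.helper72.UT.Conv

/-!
Forests rooted at a single vertex `O` which contain a given path correspond to forests
rooted at the path.
-/

set_option autoImplicit false

namespace Pool.Agent.helper72.UT

open Finset

section
variable {V : Type*} [DecidableEq V]

/-- `γ` is a self avoiding path of `G` from its head to `O` -/
structure PathTo (G : SimpleGraph V) (O : V) (γ : List V) : Prop where
  chain : γ.IsChain G.Adj
  nodup : γ.Nodup
  last : γ.getLast? = some O

/-- position of `x` in `γ`, counted from the end -/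
def pos (γ : List V) (x : V) : ℕ := (γ.dropWhile (fun y => decide (y ≠ x))).length - 1

/-- make all vertices of `γ` roots -/
def red (γ : List V) (f : V → V) : V → V := fun x => if x ∈ γ then x else f x

/-- the vertex after `x` in `γ` -/
def nxt (γ : List V) (x : V) : V := ((γ.dropWhile (fun y => decide (y ≠ x))).tail).headD x

/-- join the roots of `γ` along `γ` -/
def ext (γ : List V) (g : V → V) : V → V := fun x => if x ∈ γ then nxt γ x else g x

variable {G : SimpleGraph V} {O : V} {f : V → V}

lemma dropWhile_eq_of_suffix {γ δ : List V} {a : V} (hn : γ.Nodup) (h : (a :: δ) <:+ γ) :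
    γ.dropWhile (fun y => decide (y ≠ a)) = a :: δ := by
  obtain ⟨l, rfl⟩ := h
  have hal : a ∉ l := by
    intro hal
    rw [List.nodup_append] at hn
    exact hn.2.2 a hal a (by simp) rfl
  clear hn
  induction l with
  | nil => simp
  | cons b l ih =>
    rw [List.mem_cons, not_or] at hal
    rw [List.cons_append, List.dropWhile_cons_of_pos (by simpa using Ne.symm hal.1)]
    exact ih hal.2

lemma IsFor.pathTo {u : V} (hf : IsFor G {O} f) : PathTo G O (pth {O} f u) := by
  refine ⟨?_, hf.nodup_pth u, ?_⟩
  · refine hf.ind (P := fun u => (pth {O} f u).IsChain G.Adj) ?_ ?_ u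
    · intro v hv; rw [pth_mem hv]; simp
    · intro v hv ih
      rw [pth_not_mem hv (hf.hit v)]
      obtain ⟨l, hl⟩ : ∃ l, pth {O} f (f v) = f v :: l := by
        unfold pth; rw [List.iterate]; exact ⟨_, rfl⟩
      rw [hl] at ih ⊢
      rw [List.isChain_cons_cons]
      exact ⟨hf.adj v hv, ih⟩
  · rw [hf.getLast_pth u]
    have := hf.rt_mem_B u
    rw [Finset.mem_singleton] at this
    rw [this]

lemma IsFor.root_mem_pth (hf : IsFor G {O} f) (u : V) : O ∈ pth {O} f u := by
  exact List.mem_of_getLast? (hf.pathTo (u := u)).last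

lemma IsFor.red (hf : IsFor G {O} f) (u : V) :
    IsFor G (pth {O} f u).toFinset (red (pth {O} f u) f) := by
  set γ := pth {O} f u with hγ
  have hO : O ∈ γ := hf.root_mem_pth u
  refine ⟨?_, ?_, ?_⟩
  · intro v hv
    unfold UT.red
    rw [if_pos (by simpa using hv)]
  · intro v hv
    have hv' : v ∉ γ := by simpa using hv
    unfold UT.red
    rw [if_neg hv']
    refine hf.adj v ?_
    rw [Finset.mem_singleton]; rintro rfl; exact hv' hO
  · intro v
    refine hf.ind (P := fun v => ∃ k, (UT.red γ f)^[k] v ∈ γ.toFinset) ?_ ?_ v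
    · intro v hv
      rw [Finset.mem_singleton] at hv
      subst hv
      exact ⟨0, by simpa using hO⟩
    · intro v _ ih
      by_cases h : v ∈ γ
      · exact ⟨0, by simpa using h⟩
      · obtain ⟨k, hk⟩ := ih
        refine ⟨k + 1, ?_⟩
        rw [Function.iterate_succ_apply]
        have : UT.red γ f v = f v := by unfold UT.red; rw [if_neg h]
        rw [this]; exact hk

lemma IsFor.dep_red (hf : IsFor G {O} f) (u v : V) :
    dep {O} f v = dep (pth {O} f u).toFinset (UT.red (pth {O} f u) f) v +
      pos (pth {O} f u) (rt (pth {O} f u).toFinset (UT.red (pth {O} f u) f) v) := by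
  have hg := hf.red u
  set γ := pth {O} f u with hγ
  set g := UT.red γ f with hgdef
  have hO : O ∈ γ := hf.root_mem_pth u
  have hpos : ∀ x ∈ γ, pos γ x = dep {O} f x := by
    intro x hx
    unfold pos
    rw [hf.dropWhile_pth u x hx, pth_length]; rfl
  refine hf.ind (P := fun v => dep {O} f v = dep γ.toFinset g v + pos γ (rt γ.toFinset g v)) ?_ ?_ v
  · intro v hv
    rw [Finset.mem_singleton] at hv
    subst hv
    have hO' : v ∈ γ.toFinset := by simpa using hO
    rw [dep_mem hO', rt_mem hO', hpos v hO]
    simp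
  · intro v hv ih
    by_cases h : v ∈ γ
    · have h' : v ∈ γ.toFinset := by simpa using h
      rw [dep_mem h', rt_mem h', hpos v h]; simp
    · have h' : v ∉ γ.toFinset := by simpa using h
      have hgv : g v = f v := by rw [hgdef]; unfold UT.red; rw [if_neg h]
      rw [dep_not_mem hv (hf.hit v), dep_not_mem h' (hg.hit v), rt_not_mem h' (hg.hit v), hgv, ih]
      omega

lemma ext_red (hf : IsFor G {O} f) (u : V) :
    ext (pth {O} f u) (red (pth {O} f u) f) = f := by
  funext x
  unfold ext
  by_cases hx : x ∈ pth {O} f u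
  · rw [if_pos hx]
    unfold nxt
    rw [hf.dropWhile_pth u x hx]
    by_cases h : x ∈ ({O} : Finset V)
    · rw [pth_mem h, hf.fix x h]; simp
    · rw [pth_not_mem h (hf.hit x)]
      obtain ⟨l, hl⟩ : ∃ l, pth {O} f (f x) = f x :: l := by
        unfold pth; rw [List.iterate]; exact ⟨_, rfl⟩
      rw [hl]; simp
  · rw [if_neg hx]
    unfold red
    rw [if_neg hx]

lemma red_ext (γ : List V) (g : V → V) (hg : IsFor G γ.toFinset g) : red γ (ext γ g) = g := by
  funext x
  unfold red ext
  by_cases hx : x ∈ γ
  · rw [if_pos hx, hg.fix x (by simpa using hx)]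
  · rw [if_neg hx, if_neg hx]

lemma PathTo.ext {γ : List V} {g : V → V} (hγ : PathTo G O γ) (hg : IsFor G γ.toFinset g) :
    IsFor G {O} (ext γ g) ∧ ∀ a δ, γ = a :: δ → pth {O} (UT.ext γ g) a = γ := by
  set f := UT.ext γ g with hf
  have hO : O ∈ γ := List.mem_of_getLast? hγ.last
  -- values of f along γ
  have hval : ∀ a b δ, (a :: b :: δ) <:+ γ → f a = b := by
    intro a b δ h
    have hmem : a ∈ γ := h.mem (by simp)
    rw [hf]; unfold UT.ext nxt
    rw [if_pos hmem, dropWhile_eq_of_suffix hγ.nodup h]; simp
  have hlastsuf : ∀ a, [a] <:+ γ → a = O := by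
    rintro a ⟨l, hl⟩
    have := hγ.last
    rw [← hl] at this
    simpa using this
  have hOsuf : [O] <:+ γ := by
    have h1 : γ ≠ [] := by rintro rfl; simp at hO
    refine ⟨γ.dropLast, ?_⟩
    have h2 : γ.getLast h1 = O := by
      have := hγ.last
      rw [List.getLast?_eq_some_getLast h1] at this
      simpa using this
    conv_rhs => rw [← List.dropLast_append_getLast h1, h2]
  have hfO : f O = O := by
    rw [hf]; unfold UT.ext nxt
    rw [if_pos hO, dropWhile_eq_of_suffix hγ.nodup hOsuf]; simp
  have hsufO : ∀ a b δ, (a :: b :: δ) <:+ γ → a ≠ O := by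
    intro a b δ h hao
    subst hao
    have h1 := dropWhile_eq_of_suffix hγ.nodup h
    have h2 := dropWhile_eq_of_suffix hγ.nodup hOsuf
    rw [h1] at h2
    simp at h2
  -- hits along γ
  have hhit : ∀ δ a, (a :: δ) <:+ γ → ∃ k, f^[k] a ∈ ({O} : Finset V) := by
    intro δ
    induction δ with
    | nil => intro a h; exact ⟨0, by simpa using hlastsuf a h⟩
    | cons b δ ih =>
      intro a h
      obtain ⟨k, hk⟩ := ih b ((List.suffix_cons a (b :: δ)).trans h)
      refine ⟨k + 1, ?_⟩
      rw [Function.iterate_succ_apply, hval a b δ h]; exact hk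
  have hsufmem : ∀ x ∈ γ, ∃ δ, (x :: δ) <:+ γ := by
    intro x hx
    obtain ⟨l, δ, h⟩ := List.append_of_mem hx
    exact ⟨δ, ⟨l, h.symm⟩⟩
  have hitall : ∀ v, ∃ k, f^[k] v ∈ ({O} : Finset V) := by
    intro v
    refine hg.ind (P := fun v => ∃ k, f^[k] v ∈ ({O} : Finset V)) ?_ ?_ v
    · intro v hv
      obtain ⟨δ, h⟩ := hsufmem v (by simpa using hv)
      exact hhit δ v h
    · intro v hv ih
      obtain ⟨k, hk⟩ := ih
      refine ⟨k + 1, ?_⟩
      have : f v = g v := by
        rw [hf]; unfold UT.ext; rw [if_neg (by simpa using hv)]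
      rw [Function.iterate_succ_apply, this]; exact hk
  have hfor : IsFor G {O} f := by
    refine ⟨?_, ?_, hitall⟩
    · intro v hv
      rw [Finset.mem_singleton] at hv
      subst hv; exact hfO
    · intro v hv
      rw [Finset.mem_singleton] at hv
      by_cases h : v ∈ γ
      · obtain ⟨δ, hδ⟩ := hsufmem v h
        cases δ with
        | nil => exact absurd (hlastsuf v hδ) hv
        | cons b δ =>
          rw [hval v b δ hδ]
          obtain ⟨l, hl⟩ := hδ
          have hc := hγ.chain
          rw [← hl] at hc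
          have := (List.isChain_append.1 hc).2.1
          rw [List.isChain_cons_cons] at this
          exact this.1
      · have : f v = g v := by
          rw [hf]; unfold UT.ext; rw [if_neg h]
        rw [this]; exact hg.adj v (by simpa using h)
  refine ⟨hfor, ?_⟩
  have hpth : ∀ δ a, (a :: δ) <:+ γ → pth {O} f a = a :: δ := by
    intro δ
    induction δ with
    | nil =>
      intro a h
      rw [pth_mem (by simpa using hlastsuf a h)]
    | cons b δ ih =>
      intro a h
      have h1 : a ∉ ({O} : Finset V) := by simpa using hsufO a b δ h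
      rw [pth_not_mem h1 (hitall a), hval a b δ h,
        ih b ((List.suffix_cons a (b :: δ)).trans h)]
  intro a δ h
  rw [hpth δ a (h ▸ List.suffix_refl _), h]

end

section
variable {V : Type*} [Fintype V] [DecidableEq V]

/-- sums over forests containing the path `γ` -/
theorem sum_path (G : SimpleGraph V) (O : V) (a : V) (δ : List V) (hγ : PathTo G O (a :: δ))
    (F : (V → V) → ℝ) :
    ∑ f ∈ (fors G {O}).filter (fun f => pth {O} f a = a :: δ), F f =
      ∑ g ∈ fors G (a :: δ).toFinset, F (ext (a :: δ) g) := by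
  refine Finset.sum_nbij' (red (a :: δ)) (ext (a :: δ)) ?_ ?_ ?_ ?_ ?_
  · intro f hf
    rw [Finset.mem_filter, mem_fors] at hf
    rw [mem_fors]
    have := hf.1.red a
    rw [hf.2] at this
    exact this
  · intro g hg
    rw [mem_fors] at hg
    rw [Finset.mem_filter, mem_fors]
    obtain ⟨h1, h2⟩ := hγ.ext hg
    exact ⟨h1, h2 a δ rfl⟩
  · intro f hf
    rw [Finset.mem_filter, mem_fors] at hf
    have := ext_red hf.1 a
    rw [hf.2] at this
    exact this
  · intro g hg
    rw [mem_fors] at hg
    exact red_ext _ g hg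
  · intro f hf
    rw [Finset.mem_filter, mem_fors] at hf
    have := ext_red hf.1 a
    rw [hf.2] at this
    rw [this]

end

end Pool.Agent.helper72.UT
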