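import Pool.Agent.helper72.UT.Kernel

/-!
Convergence of the Green sums of the killed path state kernel.
-/

set_option autoImplicit false

namespace Pool.Agent.helper72.UT

open Finset Filter Topology

variable {V : Type*} [Fintype V] [DecidableEq V]

omit [Fintype V] in
lemma stepL_cons (γ : List V) (y : V) : ∃ l, stepL γ y = y :: l := by
  unfold stepL
  by_cases h : y ∈ γ
  · rw [if_pos h]
    induction γ with
    | nil => simp at h
    | cons a l ih =>
      by_cases ha : a = y
      · subst ha; simp
      · rw [List.dropWhile_cons_of_pos (by simpa using ha)]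
        apply ih
        rcases List.mem_cons.1 h with h' | h'
        · exact absurd h'.symm ha
        · exact h'
  · rw [if_neg h]; exact ⟨γ, rfl⟩

/-- survival probabilities of the walk killed on `C` at positive times -/
noncomputable def srv (p : V → V → ℝ) (C : Finset V) : ℕ → V → ℝ
  | 0, _ => 1
  | t + 1, x => ∑ y, p x y * (if y ∈ C then 0 else srv p C t y)

variable {p : V → V → ℝ} {C : Finset V}

lemma srv_nonneg (hp : ∀ x y, 0 ≤ p x y) (t : ℕ) (x : V) : 0 ≤ srv p C t x := by
  induction t generalizing x with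
  | zero => simp [srv]
  | succ t ih =>
    unfold srv
    refine Finset.sum_nonneg fun y _ => mul_nonneg (hp x y) ?_
    split_ifs
    · exact le_rfl
    · exact ih y

lemma srv_anti (hp : ∀ x y, 0 ≤ p x y) (hp1 : ∀ x, ∑ y, p x y ≤ 1) (t : ℕ) (x : V) :
    srv p C (t + 1) x ≤ srv p C t x := by
  induction t generalizing x with
  | zero =>
    show ∑ y, p x y * (if y ∈ C then 0 else srv p C 0 y) ≤ 1
    refine le_trans (Finset.sum_le_sum fun y _ => ?_) (hp1 x)
    have : (if y ∈ C then (0 : ℝ) else srv p C 0 y) ≤ 1 := by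
      split_ifs
      · norm_num
      · simp [srv]
    calc p x y * _ ≤ p x y * 1 := mul_le_mul_of_nonneg_left this (hp x y)
      _ = p x y := mul_one _
  | succ t ih =>
    show ∑ y, p x y * (if y ∈ C then 0 else srv p C (t + 1) y) ≤
      ∑ y, p x y * (if y ∈ C then 0 else srv p C t y)
    refine Finset.sum_le_sum fun y _ => mul_le_mul_of_nonneg_left ?_ (hp x y)
    split_ifs
    · exact le_rfl
    · exact ih y

lemma srv_le_one (hp : ∀ x y, 0 ≤ p x y) (hp1 : ∀ x, ∑ y, p x y ≤ 1) (t : ℕ) (x : V) :
    srv p C t x ≤ 1 := by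
  induction t with
  | zero => simp [srv]
  | succ t ih => exact le_trans (srv_anti hp hp1 t x) ih

lemma ker_iter_le (hp : ∀ x y, 0 ≤ p x y) (φ : List V → ℝ) (M : ℝ) (hM : ∀ γ, |φ γ| ≤ M)
    (t : ℕ) (x : V) (l : List V) :
    |(ker p C)^[t] φ (x :: l)| ≤ M * srv p C t x := by
  induction t generalizing x l with
  | zero => simpa [srv] using hM (x :: l)
  | succ t ih =>
    rw [Function.iterate_succ_apply']
    show |∑ y, p x y * (if y ∈ C then 0 else (ker p C)^[t] φ (stepL (x :: l) y))| ≤
      M * ∑ y, p x y * (if y ∈ C then 0 else srv p C t y)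
    refine le_trans (Finset.abs_sum_le_sum_abs _ _) ?_
    rw [Finset.mul_sum]
    refine Finset.sum_le_sum fun y _ => ?_
    rw [abs_mul, abs_of_nonneg (hp x y)]
    by_cases hy : y ∈ C
    · simp [hy]
    · rw [if_neg hy, if_neg hy]
      obtain ⟨l', hl'⟩ := stepL_cons (x :: l) y
      rw [hl']
      calc p x y * |(ker p C)^[t] φ (y :: l')| ≤ p x y * (M * srv p C t y) :=
            mul_le_mul_of_nonneg_left (ih y l') (hp x y)
        _ = M * (p x y * srv p C t y) := by ring

/-- the killed walk on a connected graph dies out -/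
theorem srv_tendsto (G : SimpleGraph V) (hG : G.Connected) (hp : ∀ x y, 0 ≤ p x y)
    (hp1 : ∀ x, ∑ y, p x y ≤ 1) (hpx : ∀ x, 0 < p x x) (hpa : ∀ x y, G.Adj x y → 0 < p x y)
    (hC : C.Nonempty) (x : V) : Tendsto (fun t => srv p C t x) atTop (𝓝 0) := by
  have hanti : ∀ x, Antitone (fun t => srv p C t x) := fun x =>
    antitone_nat_of_succ_le (fun t => srv_anti hp hp1 t x)
  have hbdd : ∀ x, BddBelow (Set.range (fun t => srv p C t x)) := fun x =>
    ⟨0, by rintro _ ⟨t, rfl⟩; exact srv_nonneg hp t x⟩
  set s : V → ℝ := fun x => ⨅ t, srv p C t x with hs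
  have hlim : ∀ x, Tendsto (fun t => srv p C t x) atTop (𝓝 (s x)) := fun x =>
    tendsto_atTop_ciInf (hanti x) (hbdd x)
  have hs0 : ∀ x, 0 ≤ s x := fun x => ge_of_tendsto' (hlim x) (fun t => srv_nonneg hp t x)
  have heq : ∀ x, s x = ∑ y, p x y * (if y ∈ C then 0 else s y) := by
    intro x
    have h1 : Tendsto (fun t => srv p C (t + 1) x) atTop (𝓝 (s x)) :=
      (hlim x).comp (tendsto_add_atTop_nat 1)
    have h2 : Tendsto (fun t => srv p C (t + 1) x) atTop
        (𝓝 (∑ y, p x y * (if y ∈ C then 0 else s y))) := by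
      show Tendsto (fun t => ∑ y, p x y * (if y ∈ C then 0 else srv p C t y)) atTop _
      refine tendsto_finsetSum _ fun y _ => ?_
      refine Tendsto.const_mul _ ?_
      by_cases hy : y ∈ C
      · simp [hy]
      · simpa [hy] using hlim y
    exact tendsto_nhds_unique h1 h2
  haveI : Nonempty V := ⟨x⟩
  obtain ⟨m, hm⟩ := Finite.exists_max s
  have hz : s m = 0 := by
    by_contra hne
    have hpos : 0 < s m := lt_of_le_of_ne (hs0 m) (Ne.symm hne)
    -- the maximum propagates
    have hprop : ∀ x, s x = s m → ∀ y, 0 < p x y → y ∉ C ∧ s y = s m := by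
      intro x hx y hxy
      by_contra hcon
      have hlt : p x y * (if y ∈ C then 0 else s y) < p x y * s m := by
        refine mul_lt_mul_of_pos_left ?_ hxy
        by_cases hy : y ∈ C
        · rw [if_pos hy]; exact hpos
        · rw [if_neg hy]
          refine lt_of_le_of_ne (hm y) ?_
          intro h; exact hcon ⟨hy, h⟩
      have hle : ∀ z, p x z * (if z ∈ C then 0 else s z) ≤ p x z * s m := by
        intro z
        refine mul_le_mul_of_nonneg_left ?_ (hp x z)
        split_ifs
        · exact hpos.le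
        · exact hm z
      have : ∑ z, p x z * (if z ∈ C then 0 else s z) < ∑ z, p x z * s m :=
        Finset.sum_lt_sum (fun z _ => hle z) ⟨y, mem_univ y, hlt⟩
      rw [← heq x, ← Finset.sum_mul, hx] at this
      have h3 : (∑ z, p x z) * s m ≤ 1 * s m := mul_le_mul_of_nonneg_right (hp1 x) hpos.le
      linarith
    have hall : ∀ y, s y = s m := by
      intro y
      obtain ⟨w⟩ := hG.preconnected m y
      have : ∀ (a b : V), G.Walk a b → s a = s m → s b = s m := by
        intro a b w
        induction w with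
        | nil => exact id
        | cons h _ ih => exact fun ha => ih (hprop _ ha _ (hpa _ _ h)).2
      exact this m y w rfl
    obtain ⟨c, hc⟩ := hC
    exact (hprop c (hall c) c (hpx c)).1 hc
  have : s x = 0 := le_antisymm (hz ▸ hm x) (hs0 x)
  rw [← this]
  exact hlim x

open Classical in
theorem pot_hasSum (G : SimpleGraph V) (hG : G.Connected) (D : ℕ) (hD : 0 < D)
    (hreg : ∀ v, (univ.filter (fun w => G.Adj v w)).card = D)
    (C : Finset V) (o : V) (ho : o ∈ C) (φ : List V → ℝ) (M : ℝ) (hM : ∀ γ, |φ γ| ≤ M) :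
    HasSum (fun t => ((fors G C).card : ℝ) * (ker (lz G D) C)^[t] φ [o]) (pot G C o φ) := by
  have hDR : (0 : ℝ) < D := by exact_mod_cast hD
  have hp : ∀ x y, 0 ≤ lz G D x y := by
    intro x y; unfold lz
    refine add_nonneg ?_ ?_ <;> split_ifs <;> positivity
  have hp1' : ∀ x, ∑ y, lz G D x y = 1 := by
    intro x; unfold lz
    rw [Finset.sum_add_distrib, Finset.sum_ite_eq, if_pos (mem_univ _), ← Finset.sum_filter,
      Finset.sum_const, hreg, nsmul_eq_mul]
    field_simp
    norm_num
  have hp1 : ∀ x, ∑ y, lz G D x y ≤ 1 := fun x => (hp1' x).le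
  have hpx : ∀ x, 0 < lz G D x x := by
    intro x; unfold lz; simp
  have hpa : ∀ x y, G.Adj x y → 0 < lz G D x y := by
    intro x y h; unfold lz
    rw [if_pos h]
    have : (0 : ℝ) ≤ if x = y then (1 / 2 : ℝ) else 0 := by split_ifs <;> positivity
    have : (0 : ℝ) < 1 / (2 * (D : ℝ)) := by positivity
    linarith
  have hsrv := srv_tendsto (C := C) G hG hp hp1 hpx hpa ⟨o, ho⟩
  -- partial sums
  have hpart : ∀ (ψ : List V → ℝ) (T : ℕ), ∑ t ∈ range T,
      ((fors G C).card : ℝ) * (ker (lz G D) C)^[t] ψ [o] =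
      pot G C o ψ - pot G C o ((ker (lz G D) C)^[T] ψ) := by
    intro ψ T
    induction T with
    | zero => simp
    | succ T ih =>
      rw [Finset.sum_range_succ, ih, Function.iterate_succ_apply']
      have := pot_step G D hD hreg C o ho ((ker (lz G D) C)^[T] ψ)
      linarith
  have hrem : ∀ (ψ : List V → ℝ) (M : ℝ), (∀ γ, |ψ γ| ≤ M) →
      Tendsto (fun T => pot G C o ((ker (lz G D) C)^[T] ψ)) atTop (𝓝 0) := by
    intro ψ M hM
    unfold pot
    have : (0 : ℝ) = ∑ f ∈ fors G C, ∑ v ∈ univ.filter (fun v => rt C f v = o), 0 := by simp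
    rw [this]
    refine tendsto_finsetSum _ fun f _ => tendsto_finsetSum _ fun v _ => ?_
    have h1 : Tendsto (fun T => M * srv (lz G D) C T v) atTop (𝓝 0) := by
      simpa using (hsrv v).const_mul M
    refine squeeze_zero_norm ?_ h1
    intro T
    obtain ⟨l, hl⟩ := pth_eq_cons C f v
    rw [hl, Real.norm_eq_abs]
    exact ker_iter_le hp ψ M hM T v l
  have hM0 : 0 ≤ M := le_trans (abs_nonneg _) (hM [])
  -- summability
  have hsum1 : Summable (fun t => ((fors G C).card : ℝ) * srv (lz G D) C t o) := by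
    have hone : ∀ t, (ker (lz G D) C)^[t] (fun _ => (1 : ℝ)) [o] = srv (lz G D) C t o := by
      have : ∀ t x l, (ker (lz G D) C)^[t] (fun _ => (1 : ℝ)) (x :: l) = srv (lz G D) C t x := by
        intro t
        induction t with
        | zero => intro x l; simp [srv]
        | succ t ih =>
          intro x l
          rw [Function.iterate_succ_apply']
          show ∑ y, lz G D x y * (if y ∈ C then 0 else
            (ker (lz G D) C)^[t] (fun _ => (1 : ℝ)) (stepL (x :: l) y)) =
            ∑ y, lz G D x y * (if y ∈ C then 0 else srv (lz G D) C t y)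
          refine Finset.sum_congr rfl fun y _ => ?_
          obtain ⟨l', hl'⟩ := stepL_cons (x :: l) y
          rw [hl', ih]
      intro t; exact this t o []
    have h0 : ∀ t, 0 ≤ ((fors G C).card : ℝ) * srv (lz G D) C t o := fun t =>
      mul_nonneg (by positivity) (srv_nonneg hp t o)
    have h1 := hpart (fun _ => (1 : ℝ))
    have h2 := (hrem (fun _ => (1 : ℝ)) 1 (by simp)).const_sub (pot G C o (fun _ => (1 : ℝ)))
    refine ((hasSum_iff_tendsto_nat_of_nonneg h0 (pot G C o (fun _ => (1 : ℝ)))).2 ?_).summable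
    rw [sub_zero] at h2
    refine h2.congr fun T => ?_
    rw [← h1 T]
    refine Finset.sum_congr rfl fun t _ => ?_
    rw [hone]
  have hsum : Summable (fun t => ((fors G C).card : ℝ) * (ker (lz G D) C)^[t] φ [o]) := by
    refine Summable.of_norm_bounded (hsum1.mul_left M) fun t => ?_
    rw [Real.norm_eq_abs, abs_mul, abs_of_nonneg (by positivity : (0 : ℝ) ≤ (fors G C).card)]
    have := ker_iter_le (C := C) hp φ M hM t o []
    calc ((fors G C).card : ℝ) * |(ker (lz G D) C)^[t] φ [o]| ≤
        ((fors G C).card : ℝ) * (M * srv (lz G D) C t o) :=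
          mul_le_mul_of_nonneg_left this (by positivity)
      _ = M * (((fors G C).card : ℝ) * srv (lz G D) C t o) := by ring
  rw [hsum.hasSum_iff_tendsto_nat]
  have h2 := (hrem φ M hM).const_sub (pot G C o φ)
  rw [sub_zero] at h2
  exact h2.congr fun T => (hpart φ T).symm

end Pool.Agent.helper72.UT
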