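import Mathlib

/-!
Spanning forests of a finite graph rooted at a set `B`, coded by parent functions.
-/

set_option autoImplicit false

namespace Pool.Agent.helper72.UT

open Finset

variable {V : Type*} [DecidableEq V]

/-- `f` is (the parent function of) a spanning forest of `G` rooted at `B`. -/
structure IsFor (G : SimpleGraph V) (B : Finset V) (f : V → V) : Prop where
  fix : ∀ v ∈ B, f v = v
  adj : ∀ v, v ∉ B → G.Adj v (f v)
  hit : ∀ v, ∃ k, f^[k] v ∈ B

/-- depth of `v` -/
noncomputable def dep (B : Finset V) (f : V → V) (v : V) : ℕ :=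
  open Classical in if h : ∃ k, f^[k] v ∈ B then Nat.find h else 0

/-- the path from `v` to the root, as a list with head `v` -/
noncomputable def pth (B : Finset V) (f : V → V) (v : V) : List V :=
  List.iterate f v (dep B f v + 1)

/-- the root of `v` -/
noncomputable def rt (B : Finset V) (f : V → V) (v : V) : V := f^[dep B f v] v

lemma dep_mem {B : Finset V} {f : V → V} {v : V} (h : v ∈ B) : dep B f v = 0 := by
  classical
  unfold dep
  have h' : ∃ k, f^[k] v ∈ B := ⟨0, by simpa using h⟩
  rw [dif_pos h', Nat.find_eq_zero]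
  simpa using h

lemma dep_not_mem {B : Finset V} {f : V → V} {v : V} (hv : v ∉ B)
    (h : ∃ k, f^[k] v ∈ B) : dep B f v = dep B f (f v) + 1 := by
  classical
  obtain ⟨k, hk⟩ := h
  have hk0 : k ≠ 0 := by
    rintro rfl; exact hv (by simpa using hk)
  obtain ⟨j, rfl⟩ := Nat.exists_eq_succ_of_ne_zero hk0
  have h1 : ∃ k, f^[k] v ∈ B := ⟨_, hk⟩
  have h2 : ∃ k, f^[k] (f v) ∈ B := ⟨j, by simpa [Function.iterate_succ_apply] using hk⟩
  unfold dep
  rw [dif_pos h1, dif_pos h2]
  rw [Nat.find_eq_iff]
  refine ⟨?_, ?_⟩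
  · have := Nat.find_spec h2
    rw [Function.iterate_succ_apply]; exact this
  · intro m hm
    cases m with
    | zero => simpa using hv
    | succ m =>
      rw [Function.iterate_succ_apply]
      exact Nat.find_min h2 (by omega)

lemma pth_mem {B : Finset V} {f : V → V} {v : V} (h : v ∈ B) : pth B f v = [v] := by
  unfold pth; rw [dep_mem h]; simp [List.iterate]

lemma pth_not_mem {B : Finset V} {f : V → V} {v : V} (hv : v ∉ B)
    (h : ∃ k, f^[k] v ∈ B) : pth B f v = v :: pth B f (f v) := by
  unfold pth; rw [dep_not_mem hv h]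
  rw [List.iterate]

lemma rt_mem {B : Finset V} {f : V → V} {v : V} (h : v ∈ B) : rt B f v = v := by
  unfold rt; rw [dep_mem h]; simp

lemma rt_not_mem {B : Finset V} {f : V → V} {v : V} (hv : v ∉ B)
    (h : ∃ k, f^[k] v ∈ B) : rt B f v = rt B f (f v) := by
  unfold rt; rw [dep_not_mem hv h, Function.iterate_succ_apply]

variable {G : SimpleGraph V} {B : Finset V} {f : V → V}

/-- induction along a forest -/
theorem IsFor.ind (hf : IsFor G B f) {P : V → Prop} (h0 : ∀ v ∈ B, P v)
    (h1 : ∀ v, v ∉ B → P (f v) → P v) (v : V) : P v := by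
  obtain ⟨k, hk⟩ := hf.hit v
  induction k generalizing v with
  | zero => exact h0 v (by simpa using hk)
  | succ k ih =>
    by_cases hv : v ∈ B
    · exact h0 v hv
    · exact h1 v hv (ih (f v) (by simpa [Function.iterate_succ_apply] using hk))

lemma IsFor.rt_mem_B (hf : IsFor G B f) (v : V) : rt B f v ∈ B := by
  refine hf.ind (P := fun v => rt B f v ∈ B) ?_ ?_ v
  · intro v hv; rw [rt_mem hv]; exact hv
  · intro v hv h; rw [rt_not_mem hv (hf.hit v)]; exact h

lemma IsFor.pth_ne_nil (v : V) : pth B f v ≠ [] := by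
  unfold pth; rw [List.iterate]; simp

lemma self_mem_pth (v : V) : v ∈ pth B f v := by
  unfold pth; rw [List.iterate]; simp

lemma pth_head (v : V) : (pth B f v).head? = some v := by
  unfold pth; rw [List.iterate]; simp

lemma pth_length (v : V) : (pth B f v).length = dep B f v + 1 := by
  unfold pth; simp

lemma IsFor.dropWhile_pth (hf : IsFor G B f) (v z : V) (hz : z ∈ pth B f v) :
    (pth B f v).dropWhile (fun x => decide (x ≠ z)) = pth B f z := by
  revert hz
  refine hf.ind (P := fun v => z ∈ pth B f v →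
    (pth B f v).dropWhile (fun x => decide (x ≠ z)) = pth B f z) ?_ ?_ v
  · intro v hv hz
    rw [pth_mem hv] at hz ⊢
    have : z = v := by simpa using hz
    subst this
    rw [pth_mem hv]; simp
  · intro v hv ih hz
    rw [pth_not_mem hv (hf.hit v)] at hz ⊢
    by_cases h : v = z
    · subst h
      rw [pth_not_mem hv (hf.hit v)]; simp
    · have hz' : z ∈ pth B f (f v) := by
        rcases List.mem_cons.1 hz with h' | h'
        · exact absurd h'.symm h
        · exact h'
      rw [List.dropWhile_cons_of_pos (by simpa using h)]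
      exact ih hz'

lemma IsFor.dep_le (hf : IsFor G B f) (v z : V) (hz : z ∈ pth B f v) :
    dep B f z ≤ dep B f v := by
  have h := hf.dropWhile_pth v z hz
  have h2 : ((pth B f v).dropWhile (fun x => decide (x ≠ z))).length ≤ (pth B f v).length :=
    (List.dropWhile_sublist _).length_le
  rw [h, pth_length, pth_length] at h2
  omega

lemma IsFor.not_mem_pth_parent (hf : IsFor G B f) {v : V} (hv : v ∉ B) :
    v ∉ pth B f (f v) := by
  intro h
  have := hf.dep_le _ _ h
  rw [dep_not_mem hv (hf.hit v)] at this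
  omega

lemma IsFor.rt_of_mem_pth (hf : IsFor G B f) (v z : V) (hz : z ∈ pth B f v) :
    rt B f z = rt B f v := by
  revert hz
  refine hf.ind (P := fun v => z ∈ pth B f v → rt B f z = rt B f v) ?_ ?_ v
  · intro v hv hz
    rw [pth_mem hv] at hz
    have : z = v := by simpa using hz
    rw [this]
  · intro v hv ih hz
    rw [pth_not_mem hv (hf.hit v)] at hz
    rcases List.mem_cons.1 hz with h' | h'
    · rw [h']
    · rw [rt_not_mem hv (hf.hit v)]; exact ih h'

lemma IsFor.nodup_pth (hf : IsFor G B f) (v : V) : (pth B f v).Nodup := by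
  refine hf.ind (P := fun v => (pth B f v).Nodup) ?_ ?_ v
  · intro v hv; rw [pth_mem hv]; simp
  · intro v hv ih
    rw [pth_not_mem hv (hf.hit v), List.nodup_cons]
    exact ⟨hf.not_mem_pth_parent hv, ih⟩

lemma IsFor.getLast_pth (hf : IsFor G B f) (v : V) :
    (pth B f v).getLast? = some (rt B f v) := by
  refine hf.ind (P := fun v => (pth B f v).getLast? = some (rt B f v)) ?_ ?_ v
  · intro v hv; rw [pth_mem hv, rt_mem hv]; simp
  · intro v hv ih
    rw [pth_not_mem hv (hf.hit v), rt_not_mem hv (hf.hit v)]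
    rw [List.getLast?_cons, ih]; simp

lemma IsFor.mem_B_of_mem_pth (hf : IsFor G B f) (v z : V) (hz : z ∈ pth B f v) (hB : z ∈ B) :
    z = rt B f v := by
  rw [← hf.rt_of_mem_pth v z hz, rt_mem hB]

/-- changing the parent of `z` to `w` when `w` is not a descendant of `z` -/
lemma IsFor.update (hf : IsFor G B f) {z w : V} (hz : z ∉ B) (hzw : G.Adj z w)
    (hw : z ∉ pth B f w) :
    IsFor G B (Function.update f z w) ∧
      ∀ u, z ∉ pth B f u → pth B (Function.update f z w) u = pth B f u ∧
        rt B (Function.update f z w) u = rt B f u := by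
  set g := Function.update f z w with hg
  have hgz : g z = w := by simp [hg]
  have hgn : ∀ u, u ≠ z → g u = f u := by
    intro u hu; simp [hg, hu]
  have hit1 : ∀ u, z ∉ pth B f u → ∃ k, g^[k] u ∈ B := by
    intro u
    refine hf.ind (P := fun u => z ∉ pth B f u → ∃ k, g^[k] u ∈ B) ?_ ?_ u
    · intro u hu _; exact ⟨0, by simpa using hu⟩
    · intro u hu ih hzu
      rw [pth_not_mem hu (hf.hit u), List.mem_cons, not_or] at hzu
      obtain ⟨k, hk⟩ := ih hzu.2
      refine ⟨k + 1, ?_⟩
      rw [Function.iterate_succ_apply, hgn u (Ne.symm hzu.1)]; exact hk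
  have hit2 : ∀ u, ∃ k, g^[k] u ∈ B := by
    intro u
    refine hf.ind (P := fun u => ∃ k, g^[k] u ∈ B) ?_ ?_ u
    · intro u hu; exact ⟨0, by simpa using hu⟩
    · intro u hu ih
      by_cases h : u = z
      · obtain ⟨k, hk⟩ := hit1 w hw
        refine ⟨k + 1, ?_⟩
        rw [Function.iterate_succ_apply, h, hgz]; exact hk
      · obtain ⟨k, hk⟩ := ih
        refine ⟨k + 1, ?_⟩
        rw [Function.iterate_succ_apply, hgn u h]; exact hk
  have hgF : IsFor G B g := by
    refine ⟨?_, ?_, hit2⟩
    · intro v hv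
      have : v ≠ z := by rintro rfl; exact hz hv
      rw [hgn v this]; exact hf.fix v hv
    · intro v hv
      by_cases h : v = z
      · subst h; rw [hgz]; exact hzw
      · rw [hgn v h]; exact hf.adj v hv
  refine ⟨hgF, ?_⟩
  intro u
  refine hf.ind (P := fun u => z ∉ pth B f u → pth B g u = pth B f u ∧
        rt B g u = rt B f u) ?_ ?_ u
  · intro u hu _
    rw [pth_mem hu, pth_mem hu, rt_mem hu, rt_mem hu]; exact ⟨rfl, rfl⟩
  · intro u hu ih hzu
    rw [pth_not_mem hu (hf.hit u), List.mem_cons, not_or] at hzu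
    obtain ⟨h1, h2⟩ := ih hzu.2
    rw [pth_not_mem hu (hf.hit u), pth_not_mem hu (hgF.hit u), hgn u (Ne.symm hzu.1), h1,
      rt_not_mem hu (hf.hit u), rt_not_mem hu (hgF.hit u), hgn u (Ne.symm hzu.1), h2]
    exact ⟨rfl, rfl⟩

end Pool.Agent.helper72.UT
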