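import Pool.Agent.helper72.UT.Step

/-!
The lazy path state kernel killed on `C` and its potential.
-/

set_option autoImplicit false

namespace Pool.Agent.helper72.UT

open Finset

variable {V : Type*} [Fintype V] [DecidableEq V]

/-- transition matrix of the lazy walk on a `D`-regular graph -/
noncomputable def lz (G : SimpleGraph V) (D : ℕ) (x y : V) : ℝ :=
  open Classical in (if x = y then (1 / 2 : ℝ) else 0) + (if G.Adj x y then 1 / (2 * (D : ℝ)) else 0)

/-- one step of the path state, killed when it enters `C` -/
noncomputable def ker (p : V → V → ℝ) (C : Finset V) (φ : List V → ℝ) : List V → ℝ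
  | [] => 0
  | x :: l => ∑ y, p x y * (if y ∈ C then 0 else φ (stepL (x :: l) y))

open Classical in
/-- sum of `φ (path)` over forests rooted at `C` and vertices with root `o` -/
noncomputable def pot (G : SimpleGraph V) (C : Finset V) (o : V) (φ : List V → ℝ) : ℝ :=
  ∑ f ∈ fors G C, ∑ v ∈ univ.filter (fun v => rt C f v = o), φ (pth C f v)

lemma pth_eq_cons (C : Finset V) (f : V → V) (v : V) : ∃ l, pth C f v = v :: l := by
  unfold pth; rw [List.iterate]; exact ⟨_, rfl⟩

lemma pth_tail (C : Finset V) (f : V → V) (v : V) : v :: (pth C f v).tail = pth C f v := by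
  obtain ⟨l, hl⟩ := pth_eq_cons C f v
  rw [hl]; simp

open Classical in
theorem pot_step (G : SimpleGraph V) (D : ℕ) (hD : 0 < D)
    (hreg : ∀ v, (univ.filter (fun w => G.Adj v w)).card = D)
    (C : Finset V) (o : V) (ho : o ∈ C) (φ : List V → ℝ) :
    pot G C o φ = (fors G C).card * φ [o] + pot G C o (ker (lz G D) C φ) := by
  have hDR : (D : ℝ) ≠ 0 := by positivity
  -- the part of the potential away from C
  set S : ℝ := ∑ f ∈ fors G C, ∑ v ∈ univ.filter (fun v => rt C f v = o ∧ v ∉ C), φ (pth C f v)
    with hS
  have h1 : pot G C o φ = (fors G C).card * φ [o] + S := by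
    unfold pot
    rw [hS, ← nsmul_eq_mul, ← Finset.sum_const, ← Finset.sum_add_distrib]
    refine Finset.sum_congr rfl ?_
    intro f hf
    rw [mem_fors] at hf
    rw [← Finset.sum_filter_add_sum_filter_not (univ.filter (fun v => rt C f v = o))
      (fun v => v ∈ C)]
    congr 1
    · rw [Finset.filter_filter]
      have : (univ.filter (fun v => rt C f v = o ∧ v ∈ C)) = {o} := by
        ext v
        simp only [mem_filter, mem_univ, true_and, mem_singleton]
        constructor
        · rintro ⟨h1, h2⟩
          rw [rt_mem h2] at h1; exact h1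
        · rintro rfl
          exact ⟨rt_mem ho, ho⟩
      rw [this, Finset.sum_singleton, pth_mem ho]
    · rw [Finset.filter_filter]
  have h2 : pot G C o (ker (lz G D) C φ) = S := by
    have hT := triple_sum G C o φ
    -- left hand side as iterated sum
    have hL : ∑ t ∈ (univ : Finset ((V → V) × V × V)).filter
        (fun t => IsFor G C t.1 ∧ rt C t.1 t.2.1 = o ∧ G.Adj t.2.1 t.2.2 ∧ t.2.2 ∉ C),
        φ (stepL (pth C t.1 t.2.1) t.2.2) =
        ∑ f ∈ fors G C, ∑ v ∈ univ.filter (fun v => rt C f v = o),
          ∑ y, (if G.Adj v y then (if y ∈ C then 0 else φ (stepL (pth C f v) y)) else 0) := by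
      rw [Finset.sum_filter, Fintype.sum_prod_type]
      unfold fors
      rw [Finset.sum_filter]
      refine Finset.sum_congr rfl ?_
      intro f _
      by_cases hf : IsFor G C f
      · rw [if_pos hf, Fintype.sum_prod_type, Finset.sum_filter]
        refine Finset.sum_congr rfl ?_
        intro v _
        by_cases hv : rt C f v = o
        · rw [if_pos hv]
          refine Finset.sum_congr rfl ?_
          intro y _
          by_cases ha : G.Adj v y
          · by_cases hy : y ∈ C
            · simp [hf, hv, ha, hy]
            · simp [hf, hv, ha, hy]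
          · simp [ha]
        · rw [if_neg hv]
          refine Finset.sum_eq_zero ?_
          intro y _
          simp [hv]
      · rw [if_neg hf]
        refine Finset.sum_eq_zero ?_
        intro y _
        simp [hf]
    have hR : ∑ t ∈ (univ : Finset ((V → V) × V × V)).filter
        (fun t => IsFor G C t.1 ∧ rt C t.1 t.2.1 = o ∧ G.Adj t.2.1 t.2.2 ∧ t.2.1 ∉ C),
        φ (pth C t.1 t.2.1) = D * S := by
      rw [Finset.sum_filter, Fintype.sum_prod_type, hS, Finset.mul_sum]
      unfold fors
      rw [Finset.sum_filter]
      refine Finset.sum_congr rfl ?_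
      intro f _
      by_cases hf : IsFor G C f
      · rw [if_pos hf, Fintype.sum_prod_type, Finset.mul_sum, Finset.sum_filter]
        refine Finset.sum_congr rfl ?_
        intro v _
        by_cases hv : rt C f v = o ∧ v ∉ C
        · rw [if_pos hv]
          have : ∀ y, (if IsFor G C (f, v, y).1 ∧ rt C (f, v, y).1 (f, v, y).2.1 = o ∧
              G.Adj (f, v, y).2.1 (f, v, y).2.2 ∧ (f, v, y).2.1 ∉ C then
              φ (pth C (f, v, y).1 (f, v, y).2.1) else 0) =
              if G.Adj v y then φ (pth C f v) else 0 := by
            intro y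
            by_cases ha : G.Adj v y
            · simp [hf, hv, ha]
            · simp [ha]
          rw [Finset.sum_congr rfl (fun y _ => this y), ← Finset.sum_filter, Finset.sum_const,
            hreg, nsmul_eq_mul]
        · rw [if_neg hv]
          refine Finset.sum_eq_zero ?_
          intro y _
          have : ¬ (IsFor G C f ∧ rt C f v = o ∧ G.Adj v y ∧ v ∉ C) := by
            rintro ⟨_, h, _, h'⟩; exact hv ⟨h, h'⟩
          exact if_neg this
      · rw [if_neg hf]
        refine Finset.sum_eq_zero ?_
        intro y _
        simp [hf]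
    rw [hL, hR] at hT
    -- expand the kernel
    have hK : ∀ f ∈ fors G C, ∀ v, ker (lz G D) C φ (pth C f v) =
        (1 / 2) * (if v ∈ C then 0 else φ (pth C f v)) +
        (1 / (2 * (D : ℝ))) * ∑ y, (if G.Adj v y then
          (if y ∈ C then 0 else φ (stepL (pth C f v) y)) else 0) := by
      intro f hf v
      rw [mem_fors] at hf
      have hstep : stepL (pth C f v) v = pth C f v := by
        unfold stepL
        rw [if_pos (self_mem_pth v), hf.dropWhile_pth v v (self_mem_pth v)]
      obtain ⟨l, hl⟩ := pth_eq_cons C f v
      rw [hl] at hstep ⊢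
      unfold ker lz
      simp only [add_mul, Finset.sum_add_distrib, ite_mul, zero_mul]
      congr 1
      · rw [Finset.sum_ite_eq, if_pos (mem_univ _), hstep]
      · rw [Finset.mul_sum]
        refine Finset.sum_congr rfl ?_
        intro y _
        by_cases ha : G.Adj v y
        · simp [ha]
        · simp [ha]
    unfold pot
    rw [Finset.sum_congr rfl (fun f hf => Finset.sum_congr rfl (fun v _ => hK f hf v))]
    simp only [Finset.sum_add_distrib, ← Finset.mul_sum]
    rw [hT]
    have hS2 : ∑ f ∈ fors G C, ∑ v ∈ univ.filter (fun v => rt C f v = o),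
        (if v ∈ C then 0 else φ (pth C f v)) = S := by
      rw [hS]
      refine Finset.sum_congr rfl ?_
      intro f _
      rw [← Finset.filter_filter, Finset.sum_filter (p := fun v => v ∉ C)]
      refine Finset.sum_congr rfl ?_
      intro v _
      by_cases hv : v ∈ C <;> simp [hv]
    rw [hS2]
    field_simp
    ring
  rw [h1, h2]

end Pool.Agent.helper72.UT
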