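import Pool.Agent.helper72.UT.Forest

/-!
The one step identity for path states of random spanning forests.
-/

set_option autoImplicit false

namespace Pool.Agent.helper72.UT

open Finset

/-- one step of the path state: loop erasure, head is the tip -/
def stepL {V : Type*} [DecidableEq V] (γ : List V) (y : V) : List V :=
  if y ∈ γ then γ.dropWhile (fun x => decide (x ≠ y)) else y :: γ

variable {V : Type*} [Fintype V] [DecidableEq V]

open Classical in
/-- all spanning forests rooted at `B` -/
noncomputable def fors (G : SimpleGraph V) (B : Finset V) : Finset (V → V) :=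
  univ.filter (fun f => IsFor G B f)

lemma mem_fors {G : SimpleGraph V} {B : Finset V} {f : V → V} :
    f ∈ fors G B ↔ IsFor G B f := by
  unfold fors; simp

/-- forward map on triples (forest, vertex, neighbour) -/
noncomputable def fwd (C : Finset V) (t : (V → V) × V × V) : (V → V) × V × V :=
  if t.2.2 ∈ pth C t.1 t.2.1 then (t.1, t.2.2, t.2.1)
  else (Function.update t.1 t.2.2 t.2.1, t.2.2, t.1 t.2.2)

/-- backward map on triples -/
noncomputable def bwd (C : Finset V) (t : (V → V) × V × V) : (V → V) × V × V :=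
  if t.2.1 ∈ pth C t.1 t.2.2 then (t.1, t.2.2, t.2.1)
  else (Function.update t.1 t.2.1 t.2.2, t.1 t.2.1, t.2.1)

open Classical in
theorem triple_sum (G : SimpleGraph V) (C : Finset V) (o : V) (φ : List V → ℝ) :
    ∑ t ∈ (univ : Finset ((V → V) × V × V)).filter
        (fun t => IsFor G C t.1 ∧ rt C t.1 t.2.1 = o ∧ G.Adj t.2.1 t.2.2 ∧ t.2.2 ∉ C),
        φ (stepL (pth C t.1 t.2.1) t.2.2) =
    ∑ t ∈ (univ : Finset ((V → V) × V × V)).filter
        (fun t => IsFor G C t.1 ∧ rt C t.1 t.2.1 = o ∧ G.Adj t.2.1 t.2.2 ∧ t.2.1 ∉ C),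
        φ (pth C t.1 t.2.1) := by
  refine Finset.sum_nbij' (fwd C) (bwd C) ?_ ?_ ?_ ?_ ?_
  · rintro ⟨f, v, z⟩ ht
    simp only [mem_filter, mem_univ, true_and] at ht ⊢
    obtain ⟨hf, hr, hvz, hz⟩ := ht
    unfold fwd
    by_cases h : z ∈ pth C f v
    · rw [if_pos h]
      exact ⟨hf, by simpa [hf.rt_of_mem_pth v z h] using hr, hvz.symm, hz⟩
    · rw [if_neg h]
      obtain ⟨h1, h2⟩ := hf.update hz hvz.symm h
      refine ⟨h1, ?_, ?_, hz⟩
      · show rt C (Function.update f z v) z = o
        rw [rt_not_mem hz (h1.hit z)]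
        have : Function.update f z v z = v := by simp
        rw [this, (h2 v h).2]; exact hr
      · exact hf.adj z hz
  · rintro ⟨g, z, w⟩ ht
    simp only [mem_filter, mem_univ, true_and] at ht ⊢
    obtain ⟨hg, hr, hzw, hz⟩ := ht
    unfold bwd
    by_cases h : z ∈ pth C g w
    · rw [if_pos h]
      refine ⟨hg, ?_, hzw.symm, hz⟩
      show rt C g w = o
      rw [← hg.rt_of_mem_pth w z h]; exact hr
    · rw [if_neg h]
      obtain ⟨h1, h2⟩ := hg.update hz hzw h
      have h3 := hg.not_mem_pth_parent hz
      refine ⟨h1, ?_, (hg.adj z hz).symm, hz⟩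
      show rt C (Function.update g z w) (g z) = o
      rw [(h2 _ h3).2, ← rt_not_mem hz (hg.hit z)]; exact hr
  · rintro ⟨f, v, z⟩ ht
    simp only [mem_filter, mem_univ, true_and] at ht
    obtain ⟨hf, hr, hvz, hz⟩ := ht
    unfold fwd
    by_cases h : z ∈ pth C f v
    · simp only [if_pos h]
      unfold bwd; simp only [if_pos h]
    · simp only [if_neg h]
      obtain ⟨h1, h2⟩ := hf.update hz hvz.symm h
      have h3 := hf.not_mem_pth_parent hz
      unfold bwd
      have h4 : z ∉ pth C (Function.update f z v) (f z) := by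
        rw [(h2 _ h3).1]; exact h3
      simp only [if_neg h4]
      simp
  · rintro ⟨g, z, w⟩ ht
    simp only [mem_filter, mem_univ, true_and] at ht
    obtain ⟨hg, hr, hzw, hz⟩ := ht
    unfold bwd
    by_cases h : z ∈ pth C g w
    · simp only [if_pos h]
      unfold fwd; simp only [if_pos h]
    · simp only [if_neg h]
      obtain ⟨h1, h2⟩ := hg.update hz hzw h
      have h3 := hg.not_mem_pth_parent hz
      unfold fwd
      have h4 : z ∉ pth C (Function.update g z w) (g z) := by
        rw [(h2 _ h3).1]; exact h3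
      simp only [if_neg h4]
      simp
  · rintro ⟨f, v, z⟩ ht
    simp only [mem_filter, mem_univ, true_and] at ht
    obtain ⟨hf, hr, hvz, hz⟩ := ht
    unfold fwd stepL
    by_cases h : z ∈ pth C f v
    · simp only [if_pos h]
      rw [hf.dropWhile_pth v z h]
    · simp only [if_neg h]
      obtain ⟨h1, h2⟩ := hf.update hz hvz.symm h
      rw [pth_not_mem hz (h1.hit z)]
      have : Function.update f z v z = v := by simp
      rw [this, (h2 v h).1]

end Pool.Agent.helper72.UT
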