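import Pool.Agent.helper72.UT.Redirect

/-!
Spanning trees (as simple graphs) and forests rooted at one vertex.
-/

set_option autoImplicit false

namespace Pool.Agent.helper72.UT

open Finset

section
variable {V : Type*} [DecidableEq V]

/-- the graph of a parent function -/
def treeOf (f : V → V) : SimpleGraph V where
  Adj a b := a ≠ b ∧ (f a = b ∨ f b = a)
  symm := ⟨fun _ _ h => ⟨h.1.symm, h.2.symm⟩⟩
  loopless := ⟨fun _ h => h.1 rfl⟩

variable {G : SimpleGraph V} {O : V} {f : V → V}

lemma IsFor.treeOf_le (hf : IsFor G {O} f) : treeOf f ≤ G := by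
  have h1 : ∀ a b, a ≠ b → f a = b → G.Adj a b := by
    intro a b hab h
    have ha : a ∉ ({O} : Finset V) := by
      intro ha
      rw [hf.fix a ha] at h
      exact hab h
    rw [← h]; exact hf.adj a ha
  intro a b h
  rcases h.2 with h2 | h2
  · exact h1 a b h.1 h2
  · exact (h1 b a h.1.symm h2).symm

lemma IsFor.exists_walk (hf : IsFor G {O} f) (v : V) :
    ∃ w : (treeOf f).Walk v O, w.length = dep {O} f v := by
  refine hf.ind (P := fun v => ∃ w : (treeOf f).Walk v O, w.length = dep {O} f v) ?_ ?_ v
  · intro v hv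
    rw [Finset.mem_singleton] at hv
    subst hv
    exact ⟨SimpleGraph.Walk.nil, by rw [dep_mem (by simp)]; rfl⟩
  · intro v hv ⟨w, hw⟩
    have hadj : (treeOf f).Adj v (f v) := ⟨(hf.adj v hv).ne, Or.inl rfl⟩
    refine ⟨SimpleGraph.Walk.cons hadj w, ?_⟩
    rw [SimpleGraph.Walk.length_cons, hw, dep_not_mem hv (hf.hit v)]

lemma IsFor.dep_le_walk (hf : IsFor G {O} f) {v w : V} (p : (treeOf f).Walk v w) :
    dep {O} f v ≤ p.length + dep {O} f w := by
  have h1 : ∀ a b, a ≠ b → f a = b → dep {O} f a = dep {O} f b + 1 := by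
    intro a b hab h
    have ha : a ∉ ({O} : Finset V) := by
      intro ha
      rw [hf.fix a ha] at h
      exact hab h
    rw [dep_not_mem ha (hf.hit a), h]
  induction p with
  | nil => simp
  | cons h p ih =>
    rw [SimpleGraph.Walk.length_cons]
    rcases h.2 with h2 | h2
    · have := h1 _ _ h.1 h2
      omega
    · have := h1 _ _ h.1.symm h2
      omega

lemma IsFor.dist_eq (hf : IsFor G {O} f) (v : V) : (treeOf f).dist O v = dep {O} f v := by
  rw [SimpleGraph.dist_comm]
  obtain ⟨w, hw⟩ := hf.exists_walk v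
  refine le_antisymm ?_ ?_
  · rw [← hw]; exact SimpleGraph.dist_le w
  · obtain ⟨p, hp⟩ := (SimpleGraph.Walk.reachable w).exists_walk_length_eq_dist
    rw [← hp]
    have := hf.dep_le_walk p
    rw [dep_mem (B := {O}) (v := O) (by simp)] at this
    omega

lemma IsFor.treeOf_connected (hf : IsFor G {O} f) : (treeOf f).Connected := by
  refine (SimpleGraph.connected_iff _).2 ⟨?_, ⟨O⟩⟩
  intro a b
  obtain ⟨w, _⟩ := hf.exists_walk a
  obtain ⟨w', _⟩ := hf.exists_walk b
  exact ⟨w.append w'.reverse⟩

lemma IsFor.treeOf_isTree [Finite V] (hf : IsFor G {O} f) : (treeOf f).IsTree := by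
  rw [SimpleGraph.isTree_iff_connected_and_card]
  refine ⟨hf.treeOf_connected, ?_⟩
  have himg : (treeOf f).edgeSet = (fun v => s(v, f v)) '' {v | v ≠ O} := by
    ext e
    induction e using Sym2.ind with
    | _ a b =>
      rw [SimpleGraph.mem_edgeSet]
      constructor
      · rintro ⟨hab, h | h⟩
        · refine ⟨a, ?_, by simp [h]⟩
          rintro rfl
          have := hf.fix a (by simp)
          exact hab (this ▸ h)
        · refine ⟨b, ?_, by simp [h, Sym2.eq_swap]⟩
          rintro rfl
          have := hf.fix b (by simp)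
          exact hab (this ▸ h).symm
      · rintro ⟨v, hv, he⟩
        have hv' : v ∉ ({O} : Finset V) := by simpa using hv
        have hadj : (treeOf f).Adj v (f v) := ⟨(hf.adj v hv').ne, Or.inl rfl⟩
        have : s(a, b) ∈ (treeOf f).edgeSet := by
          rw [← he]; exact hadj
        exact this
  have hinj : Set.InjOn (fun v => s(v, f v)) {v | v ≠ O} := by
    intro v hv w hw h
    have hv' : v ∉ ({O} : Finset V) := by simpa using hv
    have hw' : w ∉ ({O} : Finset V) := by simpa using hw
    simp only [Sym2.eq_iff] at h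
    rcases h with h | h
    · exact h.1
    · exfalso
      have h1 := dep_not_mem hv' (hf.hit v)
      have h2 := dep_not_mem hw' (hf.hit w)
      rw [h.2] at h1
      rw [← h.1] at h2
      omega
  rw [himg, Nat.card_coe_set_eq, Set.ncard_image_of_injOn hinj]
  have : {v : V | v ≠ O} = ({O} : Set V)ᶜ := by ext; simp
  rw [this, Set.ncard_compl, Set.ncard_singleton]
  have : 0 < Nat.card V := by
    haveI : Nonempty V := ⟨O⟩
    exact Nat.card_pos
  omega

lemma treeOf_inj {g : V → V} (hf : IsFor G {O} f) (hg : IsFor G {O} g)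
    (h : treeOf f = treeOf g) : f = g := by
  have hd : ∀ v, dep {O} f v = dep {O} g v := by
    intro v; rw [← hf.dist_eq, ← hg.dist_eq, h]
  funext v
  by_cases hv : v ∈ ({O} : Finset V)
  · rw [hf.fix v hv, hg.fix v hv]
  · have hadj : (treeOf f).Adj v (f v) := ⟨(hf.adj v hv).ne, Or.inl rfl⟩
    rw [h] at hadj
    rcases hadj.2 with h2 | h2
    · exact h2.symm
    · exfalso
      have hfv : f v ∉ ({O} : Finset V) := by
        intro hO
        have := hg.fix _ hO
        rw [h2] at this
        exact hadj.1 this
      have h3 := dep_not_mem hfv (hg.hit (f v))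
      rw [h2, ← hd, ← hd] at h3
      have h4 := dep_not_mem hv (hf.hit v)
      omega

lemma exists_for_of_tree [Finite V] {T : SimpleGraph V} (hT : T ≤ G) (hT' : T.IsTree) (O : V) :
    ∃ f, IsFor G {O} f ∧ treeOf f = T := by
  classical
  have hc : T.Connected := hT'.1
  have hex : ∀ v, v ≠ O → ∃ w, T.Adj v w ∧ T.dist v O = T.dist w O + 1 := by
    intro v hv
    obtain ⟨p, hp⟩ := hc.exists_walk_length_eq_dist v O
    cases p with
    | nil => exact absurd rfl hv
    | @cons _ w _ h p =>
      refine ⟨w, h, ?_⟩
      rw [SimpleGraph.Walk.length_cons] at hp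
      have h1 := SimpleGraph.dist_le p
      have h2 := hc.dist_triangle (u := v) (v := w) (w := O)
      have h3 : T.dist v w = 1 := SimpleGraph.dist_eq_one_iff_adj.2 h
      omega
  choose! F hF using hex
  set f : V → V := fun v => if v = O then O else F v with hf
  have hfO : f O = O := by simp [hf]
  have hfn : ∀ v, v ≠ O → f v = F v := by intro v hv; simp [hf, hv]
  have hhit : ∀ n v, T.dist v O = n → ∃ k, f^[k] v ∈ ({O} : Finset V) := by
    intro n
    induction n with
    | zero =>
      intro v hv
      rw [hc.dist_eq_zero_iff] at hv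
      exact ⟨0, by simp [hv]⟩
    | succ n ih =>
      intro v hv
      have hne : v ≠ O := by
        rintro rfl; simp at hv
      obtain ⟨h1, h2⟩ := hF v hne
      obtain ⟨k, hk⟩ := ih (F v) (by omega)
      refine ⟨k + 1, ?_⟩
      rw [Function.iterate_succ_apply, hfn v hne]; exact hk
  have hfor : IsFor G {O} f := by
    refine ⟨?_, ?_, fun v => hhit _ v rfl⟩
    · intro v hv
      rw [Finset.mem_singleton] at hv
      subst hv; exact hfO
    · intro v hv
      have hne : v ≠ O := by simpa using hv
      rw [hfn v hne]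
      exact hT (hF v hne).1
  refine ⟨f, hfor, ?_⟩
  have hle : treeOf f ≤ T := by
    have h1 : ∀ a b, a ≠ b → f a = b → T.Adj a b := by
      intro a b hab h
      have ha : a ≠ O := by
        rintro rfl
        rw [hfO] at h
        exact hab h
      rw [← h, hfn a ha]; exact (hF a ha).1
    intro a b h
    rcases h.2 with h2 | h2
    · exact h1 a b h.1 h2
    · exact (h1 b a h.1.symm h2).symm
  have hc1 := (SimpleGraph.isTree_iff_connected_and_card.1 hfor.treeOf_isTree).2
  have hc2 := (SimpleGraph.isTree_iff_connected_and_card.1 hT').2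
  have hsub : (treeOf f).edgeSet ⊆ T.edgeSet := SimpleGraph.edgeSet_subset_edgeSet.2 hle
  have : (treeOf f).edgeSet = T.edgeSet := by
    refine Set.eq_of_subset_of_ncard_le hsub ?_ (Set.toFinite _)
    rw [← Nat.card_coe_set_eq, ← Nat.card_coe_set_eq]
    omega
  exact SimpleGraph.edgeSet_inj.1 this

end

section
variable {V : Type*} [Fintype V] [DecidableEq V]

open Classical in
/-- the spanning trees of `G` -/
noncomputable def strees (G : SimpleGraph V) : Finset (SimpleGraph V) :=
  univ.filter (fun T => T ≤ G ∧ T.IsTree)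

/-- a sum over spanning trees is a sum over forests rooted at `O` -/
theorem sum_trees (G : SimpleGraph V) (O : V) (F : SimpleGraph V → ℝ) :
    ∑ T ∈ strees G, F T = ∑ f ∈ fors G {O}, F (treeOf f) := by
  symm
  refine Finset.sum_bij (fun f _ => treeOf f) ?_ ?_ ?_ ?_
  · intro f hf
    rw [mem_fors] at hf
    unfold strees
    simp only [mem_filter, mem_univ, true_and]
    exact ⟨hf.treeOf_le, hf.treeOf_isTree⟩
  · intro f hf g hg h
    rw [mem_fors] at hf hg
    exact treeOf_inj hf hg h
  · intro T hT
    unfold strees at hT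
    simp only [mem_filter, mem_univ, true_and] at hT
    obtain ⟨f, hf, hfT⟩ := exists_for_of_tree hT.1 hT.2 O
    exact ⟨f, mem_fors.2 hf, hfT⟩
  · intro f _; rfl

end

end Pool.Agent.helper72.UT
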